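import Pool.Agent.helper52.DJ.DClutter

/-!
# The closed form of `C(D, w)` agrees with deletion and replication

`clutter_zero_one`: if all weights are `0` or `1` then the members of `C(D, w)` are (up to `a ↦ (a, 0)`) the
minimal dijoins avoiding the arcs of weight `0`.  `clutter_replicate`: raising the weight of an arc
`a` of weight at least `1` by one replicates its copy `(a, 0)`.
-/

namespace Pool.Agent.helper52.DJ

open Finset

variable {V A : Type*} [Fintype V] [DecidableEq V] [Fintype A] [DecidableEq A]

/-- deletion of the arcs of weight `0` -/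
theorem clutter_zero_one (D : DG V A) (w : A → ℕ) (hw : ∀ a, w a ≤ 1) (M : Finset (A × ℕ)) :
    M ∈ (D.clutter w).mem ↔
      ∃ J, D.IsMinDijoin J ∧ (∀ a ∈ J, w a ≠ 0) ∧ M = J.image fun a => (a, 0) := by
  constructor
  · rintro ⟨h1, h2, h3⟩
    have h0 : ∀ e ∈ M, e.2 = 0 ∧ w e.1 ≠ 0 := by
      intro e he
      have a1 := h1 e he
      have a2 := hw e.1
      omega
    refine ⟨M.image Prod.fst, h3, ?_, ?_⟩
    · intro a ha
      obtain ⟨e, he, rfl⟩ := mem_image.1 ha
      exact (h0 e he).2
    · rw [image_image]
      ext e
      rw [mem_image]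
      constructor
      · intro he
        refine ⟨e, he, ?_⟩
        ext
        · rfl
        · exact (h0 e he).1.symm
      · rintro ⟨f, hf, rfl⟩
        have : f = (f.1, 0) := by
          ext
          · rfl
          · exact (h0 f hf).1
        change (f.1, 0) ∈ M
        rw [← this]; exact hf
  · rintro ⟨J, hJ, hw0, rfl⟩
    exact copies_mem D w hJ (fun _ => 0) fun a ha => Nat.pos_of_ne_zero (hw0 a ha)

/-- raising the weight of `a` by one adds, for all members `N ∋ (a, 0)`, the set
`N △ {(a, 0), (a, w a)}` -/
theorem clutter_replicate (D : DG V A) (w : A → ℕ) (a : A) (ha : 1 ≤ w a) (M : Finset (A × ℕ)) :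
    M ∈ (D.clutter (Function.update w a (w a + 1))).mem ↔
      M ∈ (D.clutter w).mem ∨
        ∃ N ∈ (D.clutter w).mem, (a, 0) ∈ N ∧ M = insert (a, w a) (N.erase (a, 0)) := by
  have hle : ∀ b, w b ≤ Function.update w a (w a + 1) b := by
    intro b
    by_cases hb : b = a
    · subst hb; simp
    · simp [hb]
  constructor
  · rintro ⟨h1, h2, h3⟩
    by_cases hM : (a, w a) ∈ M
    · right
      refine ⟨insert (a, 0) (M.erase (a, w a)), ⟨?_, ?_, ?_⟩, mem_insert_self _ _, ?_⟩
      · intro e he
        rcases mem_insert.1 he with rfl | he
        · exact ha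
        · rw [mem_erase] at he
          have h4 := h1 e he.2
          by_cases hb : e.1 = a
          · exfalso
            apply he.1
            exact h2 he.2 hM hb
          · simpa [hb] using h4
      · intro e he f hf hef
        simp only [coe_insert, coe_erase, Set.mem_insert_iff, Set.mem_sdiff, mem_coe,
          Set.mem_singleton_iff] at he hf
        rcases he with rfl | ⟨he, he'⟩ <;> rcases hf with rfl | ⟨hf, hf'⟩
        · rfl
        · exact absurd (h2 hf hM hef.symm) hf'
        · exact absurd (h2 he hM hef) he'
        · exact h2 he hf hef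
      · have : (insert (a, 0) (M.erase (a, w a))).image Prod.fst = M.image Prod.fst := by
          ext b
          simp only [mem_image, mem_insert, mem_erase]
          constructor
          · rintro ⟨e, rfl | ⟨_, he⟩, rfl⟩
            · exact ⟨(a, w a), hM, rfl⟩
            · exact ⟨e, he, rfl⟩
          · rintro ⟨e, he, rfl⟩
            by_cases hea : e = (a, w a)
            · exact ⟨(a, 0), Or.inl rfl, by rw [hea]⟩
            · exact ⟨e, Or.inr ⟨hea, he⟩, rfl⟩
        rw [this]; exact h3
      · have hne : ((a, 0) : A × ℕ) ∉ M.erase (a, w a) := by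
          intro h
          rw [mem_erase] at h
          exact h.1 (h2 h.2 hM rfl)
        rw [erase_insert hne, insert_erase hM]
    · left
      refine ⟨fun e he => ?_, h2, h3⟩
      have h4 := h1 e he
      by_cases hb : e.1 = a
      · have h5 : e.2 ≠ w a := by
          intro h
          apply hM
          have : e = (a, w a) := by ext <;> simp [hb, h]
          rw [← this]; exact he
        rw [hb] at h4 ⊢
        simp at h4
        omega
      · simpa [hb] using h4
  · rintro (⟨h1, h2, h3⟩ | ⟨N, ⟨h1, h2, h3⟩, hN, rfl⟩)
    · exact ⟨fun e he => (h1 e he).trans_le (hle _), h2, h3⟩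
    · refine ⟨?_, ?_, ?_⟩
      · intro e he
        rcases mem_insert.1 he with rfl | he
        · simp
        · exact (h1 e (mem_erase.1 he).2).trans_le (hle _)
      · intro e he f hf hef
        simp only [coe_insert, coe_erase, Set.mem_insert_iff, Set.mem_sdiff, mem_coe,
          Set.mem_singleton_iff] at he hf
        rcases he with rfl | ⟨he, he'⟩ <;> rcases hf with rfl | ⟨hf, hf'⟩
        · rfl
        · exact absurd (h2 hf hN hef.symm) hf'
        · exact absurd (h2 he hN hef) he'
        · exact h2 he hf hef
      · have : (insert (a, w a) (N.erase (a, 0))).image Prod.fst = N.image Prod.fst := by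
          ext b
          simp only [mem_image, mem_insert, mem_erase]
          constructor
          · rintro ⟨e, rfl | ⟨_, he⟩, rfl⟩
            · exact ⟨(a, 0), hN, rfl⟩
            · exact ⟨e, he, rfl⟩
          · rintro ⟨e, he, rfl⟩
            by_cases hea : e = (a, 0)
            · exact ⟨(a, w a), Or.inl rfl, by rw [hea]⟩
            · exact ⟨e, Or.inr ⟨hea, he⟩, rfl⟩
        rw [this]; exact h3

end Pool.Agent.helper52.DJ
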