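import Mathlib

/-!
# Clutters, minors, the packing property
-/

namespace Pool.Agent.helper52.DJ

open Finset

/-- A clutter over a finite ground set: a family of subsets of the ground set, none containing
another. -/
structure Clutter (E : Type*) where
  /-- the ground set -/
  ground : Finset E
  /-- the members -/
  mem : Set (Finset E)
  sub : ∀ M ∈ mem, M ⊆ ground
  anti : ∀ M ∈ mem, ∀ M' ∈ mem, M ⊆ M' → M = M'

namespace Clutter
variable {E : Type*} [DecidableEq E]

/-- a cover is a subset of the ground set meeting every member -/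
def IsCover (C : Clutter E) (B : Finset E) : Prop :=
  B ⊆ C.ground ∧ ∀ M ∈ C.mem, (B ∩ M).Nonempty

/-- `τ(C, w)`: the minimum weight of a cover -/
noncomputable def tau (C : Clutter E) (w : E → ℕ∞) : ℕ∞ := ⨅ (B : Finset E) (_ : C.IsCover B), ∑ e ∈ B, w e

/-- there are `k` members (repetitions allowed) with each `e` in at most `w e` of them -/
def Packs (C : Clutter E) (w : E → ℕ∞) (k : ℕ) : Prop :=
  ∃ f : Fin k → Finset E, (∀ i, f i ∈ C.mem) ∧
    ∀ e ∈ C.ground, ((univ.filter fun i => e ∈ f i).card : ℕ∞) ≤ w e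

/-- `ν(C, w)`: the largest number of members (repetitions allowed) with each `e` in at most `w e`
of them -/
noncomputable def nu (C : Clutter E) (w : E → ℕ∞) : ℕ∞ := ⨆ (k : ℕ) (_ : C.Packs w k), (k : ℕ∞)

/-- the packing property: `τ(C, w) = ν(C, w)` for all `w` with values `0, 1, ∞` -/
def Packing (C : Clutter E) : Prop :=
  ∀ w : E → ℕ∞, (∀ e, w e = 0 ∨ w e = 1 ∨ w e = ⊤) → C.tau w = C.nu w

/-- deletion keeps the members avoiding `e` -/
def del (C : Clutter E) (e : E) : Clutter E where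
  ground := C.ground.erase e
  mem := {M | M ∈ C.mem ∧ e ∉ M}
  sub := fun M hM x hx => mem_erase.2 ⟨fun h => hM.2 (h ▸ hx), C.sub M hM.1 hx⟩
  anti := fun M hM M' hM' h => C.anti M hM.1 M' hM'.1 h

/-- contraction keeps the inclusion-minimal sets among the `M - e` -/
def con (C : Clutter E) (e : E) : Clutter E where
  ground := C.ground.erase e
  mem := {N | (∃ M ∈ C.mem, M.erase e = N) ∧ ∀ M ∈ C.mem, M.erase e ⊆ N → M.erase e = N}
  sub := by
    rintro N ⟨⟨M, hM, rfl⟩, _⟩ x hx
    exact mem_erase.2 ⟨(mem_erase.1 hx).1, C.sub M hM (mem_erase.1 hx).2⟩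
  anti := by
    rintro N ⟨⟨M, hM, rfl⟩, _⟩ N' hN' h
    exact hN'.2 M hM h

/-- `C'` arises from `C` by deleting or contracting one element -/
def Step (C' C : Clutter E) : Prop := ∃ e ∈ C.ground, C' = C.del e ∨ C' = C.con e

/-- proper minors arise by at least one deletion or contraction -/
def ProperMinor : Clutter E → Clutter E → Prop := Relation.TransGen Step

/-- minimally non-packing clutters -/
def MinNonPacking (C : Clutter E) : Prop :=
  ¬ C.Packing ∧ ∀ C' : Clutter E, C'.ProperMinor C → C'.Packing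

/-! ### Basic facts -/

lemma tau_le (C : Clutter E) (w : E → ℕ∞) {B : Finset E} (hB : C.IsCover B) :
    C.tau w ≤ ∑ e ∈ B, w e := iInf₂_le B hB

lemma le_tau (C : Clutter E) (w : E → ℕ∞) {r : ℕ∞} (h : ∀ B, C.IsCover B → r ≤ ∑ e ∈ B, w e) :
    r ≤ C.tau w := le_iInf₂ h

lemma le_nu (C : Clutter E) (w : E → ℕ∞) {k : ℕ} (h : C.Packs w k) : (k : ℕ∞) ≤ C.nu w :=
  le_iSup₂_of_le k h le_rfl

lemma nu_le (C : Clutter E) (w : E → ℕ∞) {r : ℕ∞} (h : ∀ k, C.Packs w k → (k : ℕ∞) ≤ r) :
    C.nu w ≤ r := iSup₂_le h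

lemma Packs.mono {C : Clutter E} {w : E → ℕ∞} {k l : ℕ} (h : C.Packs w l) (hkl : k ≤ l) :
    C.Packs w k := by
  obtain ⟨f, hf, hc⟩ := h
  refine ⟨fun i => f (Fin.castLE hkl i), fun i => hf _, fun e he => le_trans ?_ (hc e he)⟩
  have : (univ.filter fun i : Fin k => e ∈ f (Fin.castLE hkl i)).card
      ≤ (univ.filter fun i : Fin l => e ∈ f i).card := by
    refine card_le_card_of_injOn (Fin.castLE hkl) ?_ ?_
    · intro i hi
      simp only [coe_filter, mem_univ, true_and, Set.mem_ofPred_eq] at hi ⊢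
      exact hi
    · exact (Fin.castLE_injective hkl).injOn
  exact_mod_cast this

lemma packs_of_le_nu {C : Clutter E} {w : E → ℕ∞} {k : ℕ} (h : (k : ℕ∞) ≤ C.nu w) : C.Packs w k := by
  by_contra hcon
  have hlt : ∀ l, C.Packs w l → l < k := by
    intro l hl
    by_contra hkl
    exact hcon (hl.mono (not_lt.1 hkl))
  rcases Nat.eq_zero_or_pos k with h0 | h0
  · subst h0
    exact hcon ⟨fun i => i.elim0, fun i => i.elim0, fun e _ => by simp⟩
  · have : C.nu w ≤ ((k - 1 : ℕ) : ℕ∞) := C.nu_le w fun l hl => by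
      have := hlt l hl
      exact_mod_cast (by omega : l ≤ k - 1)
    have h2 := h.trans this
    have h3 : k ≤ k - 1 := by exact_mod_cast h2
    omega

/-- weak duality -/
lemma nu_le_tau (C : Clutter E) (w : E → ℕ∞) : C.nu w ≤ C.tau w := by
  refine C.nu_le w fun k hk => C.le_tau w fun B hB => ?_
  obtain ⟨f, hf, hc⟩ := hk
  have h1 : k ≤ ∑ e ∈ B, (univ.filter fun i => e ∈ f i).card := by
    have h2 : ∀ i : Fin k, 1 ≤ ∑ e ∈ B, if e ∈ f i then 1 else 0 := by
      intro i
      obtain ⟨e, he⟩ := hB.2 (f i) (hf i)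
      rw [mem_inter] at he
      have := single_le_sum (f := fun e => if e ∈ f i then 1 else 0) (fun _ _ => Nat.zero_le _) he.1
      simpa [he.2] using this
    have h3 : ∑ i : Fin k, 1 ≤ ∑ i : Fin k, ∑ e ∈ B, if e ∈ f i then 1 else 0 :=
      sum_le_sum fun i _ => h2 i
    rw [sum_comm] at h3
    simp only [sum_const, card_univ, Fintype.card_fin, smul_eq_mul, mul_one] at h3
    refine h3.trans (le_of_eq (sum_congr rfl fun e _ => ?_))
    rw [card_filter]
  calc (k : ℕ∞) ≤ ((∑ e ∈ B, (univ.filter fun i => e ∈ f i).card : ℕ) : ℕ∞) := by exact_mod_cast h1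
    _ = ∑ e ∈ B, ((univ.filter fun i => e ∈ f i).card : ℕ∞) := by push_cast; rfl
    _ ≤ ∑ e ∈ B, w e := sum_le_sum fun e he => hc e (hB.1 he)

lemma tau_le_del (C : Clutter E) (w : E → ℕ∞) {e : E} (he : e ∈ C.ground) (h0 : w e = 0) :
    C.tau w ≤ (C.del e).tau w := by
  refine le_tau _ w fun B hB => ?_
  have hcov : C.IsCover (insert e B) := by
    refine ⟨?_, fun M hM => ?_⟩
    · intro x hx
      rcases mem_insert.1 hx with rfl | hx
      · exact he
      · exact (mem_erase.1 (hB.1 hx)).2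
    · by_cases hM' : e ∈ M
      · exact ⟨e, mem_inter.2 ⟨mem_insert_self _ _, hM'⟩⟩
      · obtain ⟨x, hx⟩ := hB.2 M ⟨hM, hM'⟩
        rw [mem_inter] at hx
        exact ⟨x, mem_inter.2 ⟨mem_insert_of_mem hx.1, hx.2⟩⟩
  refine (C.tau_le w hcov).trans (le_of_eq ?_)
  rw [sum_insert (fun h => (mem_erase.1 (hB.1 h)).1 rfl), h0, zero_add]

lemma nu_del_le (C : Clutter E) (w : E → ℕ∞) (e : E) :
    (C.del e).nu w ≤ C.nu w := by
  refine nu_le _ w fun k hk => C.le_nu w ?_
  obtain ⟨f, hf, hc⟩ := hk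
  refine ⟨f, fun i => (hf i).1, fun x hx => ?_⟩
  by_cases hxe : x = e
  · subst hxe
    have : (univ.filter fun i => x ∈ f i) = ∅ := by
      rw [filter_eq_empty_iff]
      exact fun i _ => (hf i).2
    rw [this]; simp
  · exact hc x (mem_erase.2 ⟨hxe, hx⟩)

lemma tau_le_con (C : Clutter E) (w : E → ℕ∞) (e : E) :
    C.tau w ≤ (C.con e).tau w := by
  refine le_tau _ w fun B hB => C.tau_le w ⟨?_, ?_⟩
  · intro x hx
    exact (mem_erase.1 (hB.1 hx)).2
  · intro M hM
    classical
    -- a minimal `M' - e` inside `M - e`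
    obtain ⟨N, hN, hmin⟩ := exists_min_image
      (((M.erase e).powerset).filter fun N => ∃ M' ∈ C.mem, M'.erase e = N) card
      ⟨M.erase e, by rw [mem_filter, mem_powerset]; exact ⟨Subset.refl _, M, hM, rfl⟩⟩
    rw [mem_filter, mem_powerset] at hN
    have hNmem : N ∈ (C.con e).mem := by
      refine ⟨hN.2, fun M' hM' hsub => ?_⟩
      refine eq_of_subset_of_card_le hsub (hmin _ ?_)
      rw [mem_filter, mem_powerset]
      exact ⟨hsub.trans hN.1, M', hM', rfl⟩
    obtain ⟨x, hx⟩ := hB.2 N hNmem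
    rw [mem_inter] at hx
    exact ⟨x, mem_inter.2 ⟨hx.1, (mem_erase.1 (hN.1 hx.2)).2⟩⟩

lemma nu_con_le (C : Clutter E) (w : E → ℕ∞) {e : E} (h0 : w e = ⊤) :
    (C.con e).nu w ≤ C.nu w := by
  refine nu_le _ w fun k hk => C.le_nu w ?_
  obtain ⟨f, hf, hc⟩ := hk
  choose g hg hge using fun i => (hf i).1
  refine ⟨g, hg, fun x hx => ?_⟩
  by_cases hxe : x = e
  · subst hxe; rw [h0]; exact le_top
  · refine le_trans (le_of_eq ?_) (hc x (mem_erase.2 ⟨hxe, hx⟩))
    congr 2
    ext i
    simp only [mem_filter, mem_univ, true_and]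
    rw [← hge i, mem_erase]
    tauto

/-- In a minimally non-packing clutter `τ = ν` for all weights that are not `1` on
the whole ground set. -/
lemma MinNonPacking.eq_of_ne_one {C : Clutter E} (h : C.MinNonPacking) (w : E → ℕ∞)
    (hw : ∀ e, w e = 0 ∨ w e = 1 ∨ w e = ⊤) {e : E} (he : e ∈ C.ground) (h1 : w e ≠ 1) :
    C.tau w = C.nu w := by
  apply le_antisymm _ (C.nu_le_tau w)
  rcases hw e with h0 | h0 | h0
  · have hp : (C.del e).Packing := h.2 _ (Relation.TransGen.single ⟨e, he, Or.inl rfl⟩)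
    exact (C.tau_le_del w he h0).trans ((hp w hw).le.trans (C.nu_del_le w e))
  · exact absurd h0 h1
  · have hp : (C.con e).Packing := h.2 _ (Relation.TransGen.single ⟨e, he, Or.inr rfl⟩)
    exact (C.tau_le_con w e).trans ((hp w hw).le.trans (C.nu_con_le w h0))

/-- In a minimally non-packing clutter `τ ≠ ν` for the all-one weights. -/
lemma MinNonPacking.tau_ne_nu {C : Clutter E} (h : C.MinNonPacking) :
    C.tau (fun _ => 1) ≠ C.nu (fun _ => 1) := by
  intro heq
  apply h.1
  intro w hw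
  by_cases hall : ∀ e ∈ C.ground, w e = 1
  · have e1 : C.tau w = C.tau fun _ => 1 := by
      unfold tau
      refine iInf_congr fun B => iInf_congr fun hB => ?_
      exact sum_congr rfl fun e he => hall e (hB.1 he)
    have e2 : C.nu w = C.nu fun _ => 1 := by
      apply le_antisymm
      · refine C.nu_le w fun k hk => C.le_nu _ ?_
        obtain ⟨f, hf, hc⟩ := hk
        exact ⟨f, hf, fun e he => by rw [← hall e he]; exact hc e he⟩
      · refine C.nu_le _ fun k hk => C.le_nu _ ?_
        obtain ⟨f, hf, hc⟩ := hk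
        exact ⟨f, hf, fun e he => by rw [hall e he]; exact hc e he⟩
    rw [e1, e2, heq]
  · push Not at hall
    obtain ⟨e, he, h1⟩ := hall
    exact h.eq_of_ne_one w hw he h1

/-- packings for `u` and `u'` combine -/
lemma Packs.add {C : Clutter E} {u u' w : E → ℕ∞} {k l : ℕ} (h : C.Packs u k) (h' : C.Packs u' l)
    (hw : ∀ e ∈ C.ground, u e + u' e ≤ w e) : C.Packs w (k + l) := by
  obtain ⟨f, hf, hc⟩ := h
  obtain ⟨g, hg, hd⟩ := h'
  refine ⟨Fin.append f g, fun i => ?_, fun e he => ?_⟩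
  · refine Fin.addCases (fun i => ?_) (fun i => ?_) i
    · rw [Fin.append_left]; exact hf i
    · rw [Fin.append_right]; exact hg i
  · have e1 : (univ.filter fun i => e ∈ Fin.append f g i).card
        = (univ.filter fun i => e ∈ f i).card + (univ.filter fun i => e ∈ g i).card := by
      simp only [card_filter]
      rw [Fin.sum_univ_add]
      simp
    rw [e1]
    push_cast
    exact (add_le_add (hc e he) (hd e he)).trans (hw e he)

end Clutter

end Pool.Agent.helper52.DJ
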