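import Pool.Agent.helper52.DJ.Dir

/-!
# The averaging argument

`z i` are integral vectors (the net outflows of integral vectors with mean `w / t`), `F` is the crossing
family of the dicut shores.  If `ρ (ρ - 2) ≤ t` then some `z i` satisfies `z i U ≤ d U - t + 1` on
all of `F`.
-/

namespace Pool.Agent.helper52.DJ

open Finset

variable {V ι : Type*} [Fintype V] [DecidableEq V] [Fintype ι]

/-- the hypotheses of the averaging argument -/
structure Sys (F : Set (Finset V)) (p : ι → ℝ) (z : ι → V → ℤ) (q m : V → ℤ) (t : ℤ) : Prop where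
  cross : IsCrossing F
  ppos : ∀ i, 0 < p i
  psum : ∑ i, p i = 1
  t2 : 2 ≤ t
  m0 : ∀ v, 0 ≤ m v
  z01 : ∀ i v, z i v = q v ∨ (z i v = q v + 1 ∧ 1 ≤ m v)
  zsum : ∀ i, ∑ v, z i v = 0
  zcut : ∀ i, ∀ U ∈ F, 1 ≤ ∑ v ∈ U, z i v
  avg : ∀ v, ∑ i, p i * z i v = q v + m v / t

section core
variable {F : Set (Finset V)} {p : ι → ℝ} {z : ι → V → ℤ} {q m : V → ℤ} {t : ℤ}

/-- the vertices where `z i` is rounded up -/
def Qs (z : ι → V → ℤ) (q : V → ℤ) (i : ι) : Finset V := univ.filter fun v => z i v ≠ q v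

lemma z_eq (H : Sys F p z q m t) (i : ι) (v : V) : z i v = q v + if v ∈ Qs z q i then 1 else 0 := by
  simp only [Qs, mem_filter, mem_univ, true_and]
  rcases H.z01 i v with h | ⟨h, _⟩
  · simp [h]
  · simp [h]

lemma z_sum (H : Sys F p z q m t) (i : ι) (Z : Finset V) :
    ∑ v ∈ Z, z i v = ∑ v ∈ Z, q v + ((Qs z q i ∩ Z).card : ℤ) := by
  rw [sum_congr rfl fun v _ => z_eq H i v, sum_add_distrib]
  congr 1
  rw [← sum_filter, sum_const, nsmul_eq_mul, mul_one]
  congr 1
  congr 1
  ext v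
  simp only [mem_filter, mem_inter]; tauto

lemma card_Q (H : Sys F p z q m t) (i : ι) : ((Qs z q i).card : ℤ) = - ∑ v, q v := by
  have h := z_sum H i univ
  rw [H.zsum i, inter_univ] at h
  linarith

lemma card_le_m (H : Sys F p z q m t) (i : ι) (Z : Finset V) :
    ((Qs z q i ∩ Z).card : ℤ) ≤ ∑ v ∈ Z, m v := by
  have h1 : ((Qs z q i ∩ Z).card : ℤ) = ∑ v ∈ Z, if v ∈ Qs z q i then 1 else 0 := by
    rw [← sum_filter, sum_const, nsmul_eq_mul, mul_one]
    congr 1
    congr 1
    ext v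
    simp only [mem_filter, mem_inter]; tauto
  rw [h1]
  refine sum_le_sum fun v _ => ?_
  split_ifs with h
  · simp only [Qs, mem_filter, mem_univ, true_and] at h
    rcases H.z01 i v with h' | ⟨_, h'⟩
    · exact absurd h' h
    · exact h'
  · exact H.m0 v

lemma tpos (H : Sys F p z q m t) : (0 : ℝ) < t := by
  have := H.t2
  have : (2 : ℝ) ≤ t := by exact_mod_cast this
  linarith

lemma avg_z (H : Sys F p z q m t) (Z : Finset V) :
    ∑ i, p i * ((∑ v ∈ Z, z i v : ℤ) : ℝ) = ((∑ v ∈ Z, q v : ℤ) : ℝ) + ((∑ v ∈ Z, m v : ℤ) : ℝ) / t := by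
  push_cast
  simp only [mul_sum]
  rw [sum_comm, sum_congr rfl fun v _ => H.avg v, sum_add_distrib, sum_div]

lemma avg_card (H : Sys F p z q m t) (Z : Finset V) :
    ∑ i, p i * ((Qs z q i ∩ Z).card : ℝ) = ((∑ v ∈ Z, m v : ℤ) : ℝ) / t := by
  have h := avg_z H Z
  have e : ∀ i, p i * ((∑ v ∈ Z, z i v : ℤ) : ℝ)
      = p i * ((∑ v ∈ Z, q v : ℤ) : ℝ) + p i * ((Qs z q i ∩ Z).card : ℝ) := by
    intro i
    rw [z_sum H i Z]; push_cast; ring
  rw [sum_congr rfl fun i _ => e i, sum_add_distrib, ← sum_mul, H.psum, one_mul] at h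
  linarith

/-- the tight members of the family for the index `o` -/
def tgt (F : Set (Finset V)) (z : ι → V → ℤ) (o : ι) : Set (Finset V) :=
  {U | U ∈ F ∧ ∑ v ∈ U, z o v = 1}

lemma card_le_card_of_upClosed (H : Sys F p z q m t) (o i : ι) (Z : Finset V)
    (hZ : UpClosed (tgt F z o) Z) : (Qs z q o ∩ Z).card ≤ (Qs z q i ∩ Z).card := by
  have hT : IsCrossing (tgt F z o) := isCrossing_tight H.cross (z o) 1 (H.zcut o)
  have h := sum_nonneg_of_upClosed hT (fun v => z i v - z o v)
    (by rw [sum_sub_distrib, H.zsum, H.zsum, sub_zero])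
    (fun U hU => by
      rw [sum_sub_distrib, hU.2]
      have := H.zcut i U hU.1
      linarith) Z hZ
  rw [sum_sub_distrib, z_sum H i Z, z_sum H o Z] at h
  have : ((Qs z q o ∩ Z).card : ℤ) ≤ (Qs z q i ∩ Z).card := by linarith
  exact_mod_cast this

/-- the vertices above a set -/
noncomputable def Zs (F : Set (Finset V)) (z : ι → V → ℤ) (o : ι) (P : Finset V) : Finset V :=
  P.biUnion (above (tgt F z o))

lemma self_mem_above (T : Set (Finset V)) (u : V) : u ∈ above T u := by
  simp [above]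

lemma upClosed_Zs (F : Set (Finset V)) (z : ι → V → ℤ) (o : ι) (P : Finset V) :
    UpClosed (tgt F z o) (Zs F z o P) := by
  intro x hx v hv
  simp only [Zs, mem_biUnion] at hx ⊢
  obtain ⟨u, hu, hxu⟩ := hx
  exact ⟨u, hu, upClosed_above _ u x hxu v hv⟩

lemma subset_Zs (F : Set (Finset V)) (z : ι → V → ℤ) (o : ι) (P : Finset V) : P ⊆ Zs F z o P := by
  intro u hu
  simp only [Zs, mem_biUnion]
  exact ⟨u, hu, self_mem_above _ u⟩

/-- Hall's theorem gives a bijection between the rounded up vertices -/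
lemma exists_sigma (H : Sys F p z q m t) (o i : ι) :
    ∃ σ : V → V, (∀ u ∈ Qs z q o, σ u ∈ Qs z q i ∧ σ u ∈ above (tgt F z o) u) ∧
      (Qs z q o).image σ = Qs z q i ∧ Set.InjOn σ (Qs z q o) := by
  classical
  have hall := (Finset.all_card_le_biUnion_card_iff_exists_injective
    (fun u : {u // u ∈ Qs z q o} => Qs z q i ∩ above (tgt F z o) u)).1 (by
      intro s
      set P : Finset V := s.map (Function.Embedding.subtype _) with hP
      have hPc : P.card = s.card := card_map _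
      have hPQ : P ⊆ Qs z q o := by
        intro u hu
        rw [hP, mem_map] at hu
        obtain ⟨a, _, rfl⟩ := hu
        exact a.2
      have e : s.biUnion (fun u => Qs z q i ∩ above (tgt F z o) u) = Qs z q i ∩ Zs F z o P := by
        ext v
        simp only [mem_biUnion, mem_inter, Zs, hP, mem_map, Function.Embedding.coe_subtype]
        constructor
        · rintro ⟨a, ha, h1, h2⟩
          exact ⟨h1, a, ⟨a, ha, rfl⟩, h2⟩
        · rintro ⟨h1, _, ⟨a, ha, rfl⟩, h2⟩
          exact ⟨a, ha, h1, h2⟩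
      rw [e, ← hPc]
      refine le_trans (card_le_card ?_) (card_le_card_of_upClosed H o i _ (upClosed_Zs F z o P))
      intro u hu
      exact mem_inter.2 ⟨hPQ hu, subset_Zs F z o P hu⟩)
  obtain ⟨f, hfi, hf⟩ := hall
  set σ : V → V := fun u => if h : u ∈ Qs z q o then f ⟨u, h⟩ else u with hσ
  have hσe : ∀ u (h : u ∈ Qs z q o), σ u = f ⟨u, h⟩ := fun u h => by rw [hσ]; simp only [dif_pos h]
  have h1 : ∀ u ∈ Qs z q o, σ u ∈ Qs z q i ∧ σ u ∈ above (tgt F z o) u := by
    intro u hu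
    have := hf ⟨u, hu⟩
    rw [mem_inter] at this
    rw [hσe u hu]; exact this
  have hinj : Set.InjOn σ (Qs z q o) := by
    intro u hu v hv h
    rw [hσe u hu, hσe v hv] at h
    have := hfi h
    exact congrArg Subtype.val this
  refine ⟨σ, h1, ?_, hinj⟩
  apply eq_of_subset_of_card_le
  · intro v hv
    obtain ⟨u, hu, rfl⟩ := mem_image.1 hv
    exact (h1 u hu).1
  · rw [card_image_of_injOn hinj]
    have h2 := card_Q H o
    have h3 := card_Q H i
    have : ((Qs z q i).card : ℤ) ≤ (Qs z q o).card := by rw [h2, h3]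
    exact_mod_cast this

lemma card_inter_Zs (H : Sys F p z q m t) (o i : ι) {σ : V → V}
    (h1 : ∀ u ∈ Qs z q o, σ u ∈ Qs z q i ∧ σ u ∈ above (tgt F z o) u)
    (h2 : (Qs z q o).image σ = Qs z q i) (h3 : Set.InjOn σ (Qs z q o)) {P : Finset V}
    (hP : P ⊆ Qs z q o) :
    (Qs z q i ∩ Zs F z o P).card = P.card + ((Qs z q o \ P).filter fun b => σ b ∈ Zs F z o P).card := by
  have e : Qs z q i ∩ Zs F z o P = ((Qs z q o).filter fun b => σ b ∈ Zs F z o P).image σ := by
    ext v
    rw [mem_inter, ← h2]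
    simp only [mem_image, mem_filter]
    constructor
    · rintro ⟨⟨u, hu, rfl⟩, hv⟩
      exact ⟨u, ⟨hu, hv⟩, rfl⟩
    · rintro ⟨u, ⟨hu, hv⟩, rfl⟩
      exact ⟨⟨u, hu, rfl⟩, hv⟩
  rw [e, card_image_of_injOn (h3.mono fun x hx => (mem_filter.1 hx).1)]
  have e2 : (Qs z q o).filter (fun b => σ b ∈ Zs F z o P)
      = P ∪ ((Qs z q o \ P).filter fun b => σ b ∈ Zs F z o P) := by
    ext b
    simp only [mem_filter, mem_union, mem_sdiff]
    constructor
    · rintro ⟨hb, hb'⟩
      by_cases hbP : b ∈ P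
      · exact Or.inl hbP
      · exact Or.inr ⟨⟨hb, hbP⟩, hb'⟩
    · rintro (hb | ⟨⟨hb, _⟩, hb'⟩)
      · refine ⟨hP hb, ?_⟩
        simp only [Zs, mem_biUnion]
        exact ⟨b, hb, (h1 b (hP hb)).2⟩
      · exact ⟨hb, hb'⟩
  rw [e2, card_union_of_disjoint]
  rw [disjoint_left]
  intro a ha hb
  exact (mem_sdiff.1 (mem_filter.1 hb).1).2 ha

/-- the surplus of a set of rounded up vertices -/
noncomputable def sur (F : Set (Finset V)) (z : ι → V → ℤ) (m : V → ℤ) (t : ℤ) (o : ι) (P : Finset V) : ℤ :=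
  ∑ v ∈ Zs F z o P, m v - t * P.card

/-- the excess of `z i` over a set of rounded up vertices -/
noncomputable def exc (F : Set (Finset V)) (z : ι → V → ℤ) (q : V → ℤ) (o i : ι) (P : Finset V) : ℤ :=
  ((Qs z q i ∩ Zs F z o P).card : ℤ) - P.card

lemma exc_nonneg (H : Sys F p z q m t) (o i : ι) {P : Finset V} (hP : P ⊆ Qs z q o) :
    0 ≤ exc F z q o i P := by
  obtain ⟨σ, h1, h2, h3⟩ := exists_sigma H o i
  rw [exc, card_inter_Zs H o i h1 h2 h3 hP]
  push_cast
  linarith [Int.natCast_nonneg ((Qs z q o \ P).filter fun b => σ b ∈ Zs F z o P).card]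

lemma avg_exc (H : Sys F p z q m t) (o : ι) (P : Finset V) :
    ∑ i, p i * (exc F z q o i P : ℝ) = (sur F z m t o P : ℝ) / t := by
  have h := avg_card H (Zs F z o P)
  have e : ∀ i, p i * (exc F z q o i P : ℝ)
      = p i * ((Qs z q i ∩ Zs F z o P).card : ℝ) - p i * (P.card : ℝ) := by
    intro i
    simp only [exc]; push_cast; ring
  rw [sum_congr rfl fun i _ => e i, sum_sub_distrib, ← sum_mul, H.psum, one_mul, h]
  simp only [sur]
  have ht := tpos H
  push_cast
  field_simp

/-- the relevant sets -/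
structure Rel (F : Set (Finset V)) (z : ι → V → ℤ) (q m : V → ℤ) (t : ℤ) (o : ι) (P : Finset V) : Prop where
  sub : P ⊆ Qs z q o
  pos : 1 ≤ sur F z m t o P
  le : (P.card : ℤ) + sur F z m t o P ≤ - ∑ v, q v - 1

/-- `γ ≥ 1` for a violated member -/
lemma gamma_pos (H : Sys F p z q m t) (i : ι) (U : Finset V)
    (hbad : t * ∑ v ∈ U, q v + ∑ v ∈ U, m v - t + 2 ≤ ∑ v ∈ U, z i v) : ∑ v ∈ U, q v ≤ 0 := by
  have h1 := card_le_m H i U
  rw [z_sum H i U] at hbad
  have ht := H.t2
  by_contra hcon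
  push Not at hcon
  nlinarith

lemma rel_of_bad (H : Sys F p z q m t) (o i : ι) {U : Finset V} (hU : U ∈ F)
    (ho : ∑ v ∈ U, z o v = 1)
    (hbad : t * ∑ v ∈ U, q v + ∑ v ∈ U, m v - t + 2 ≤ ∑ v ∈ U, z i v) :
    Rel F z q m t o (Qs z q o ∩ U) ∧
      sur F z m t o (Qs z q o ∩ U) + 1 ≤ exc F z q o i (Qs z q o ∩ U) := by
  have hg := gamma_pos H i U hbad
  set P := Qs z q o ∩ U with hP
  have hPQ : P ⊆ Qs z q o := inter_subset_left
  have hPc : (P.card : ℤ) = 1 - ∑ v ∈ U, q v := by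
    have := z_sum H o U
    rw [ho] at this
    rw [hP]; linarith
  have hZU : Zs F z o P ⊆ U := by
    intro v hv
    simp only [Zs, mem_biUnion] at hv
    obtain ⟨u, hu, hvu⟩ := hv
    simp only [above, mem_filter, mem_univ, true_and] at hvu
    exact hvu U ⟨hU, ho⟩ (mem_inter.1 hu).2
  have hcard : (Qs z q i ∩ U).card = (Qs z q i ∩ Zs F z o P).card + (Qs z q i ∩ (U \ Zs F z o P)).card := by
    rw [← card_union_of_disjoint]
    · congr 1
      ext v
      have := @hZU v
      simp only [mem_inter, mem_union, mem_sdiff]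
      tauto
    · rw [disjoint_left]
      intro a ha hb
      exact (mem_sdiff.1 (mem_inter.1 hb).2).2 (mem_inter.1 ha).2
  have hm := card_le_m H i (U \ Zs F z o P)
  have hms : ∑ v ∈ U \ Zs F z o P, m v + ∑ v ∈ Zs F z o P, m v = ∑ v ∈ U, m v := sum_sdiff hZU
  have hz := z_sum H i U
  have hcard' : ((Qs z q i ∩ U).card : ℤ) = (Qs z q i ∩ Zs F z o P).card
      + (Qs z q i ∩ (U \ Zs F z o P)).card := by exact_mod_cast hcard
  have hexc : sur F z m t o P + 1 ≤ exc F z q o i P := by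
    simp only [sur, exc]
    rw [hPc]
    nlinarith
  refine ⟨⟨hPQ, ?_, ?_⟩, hexc⟩
  · have ha := avg_exc H o P
    have ht := tpos H
    have hnn : ∀ j, 0 ≤ p j * (exc F z q o j P : ℝ) := by
      intro j
      have h1 := exc_nonneg H o j hPQ
      have h2 := H.ppos j
      have h1' : (0 : ℝ) ≤ (exc F z q o j P : ℝ) := by exact_mod_cast h1
      positivity
    have h0 : 0 ≤ (sur F z m t o P : ℝ) / t := by rw [← ha]; exact sum_nonneg fun j _ => hnn j
    have h0' : (0 : ℝ) ≤ (sur F z m t o P : ℝ) := by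
      by_contra hcon
      push Not at hcon
      have := div_neg_of_neg_of_pos hcon ht
      linarith
    have h0'' : 0 ≤ sur F z m t o P := by exact_mod_cast h0'
    have hi : p i * (exc F z q o i P : ℝ) ≤ (sur F z m t o P : ℝ) / t := by
      rw [← ha]
      exact single_le_sum (f := fun j => p j * (exc F z q o j P : ℝ)) (fun j _ => hnn j) (mem_univ i)
    have hpos : 0 < p i * (exc F z q o i P : ℝ) := by
      have h1 : (1 : ℝ) ≤ (exc F z q o i P : ℝ) := by
        have : 1 ≤ exc F z q o i P := by linarith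
        exact_mod_cast this
      have := H.ppos i
      positivity
    by_contra hcon
    have hz0 : sur F z m t o P = 0 := by omega
    rw [hz0] at hi
    simp at hi
    linarith
  · have h1 := card_Q H i
    have h2 : (Qs z q i ∩ Zs F z o P).card ≤ (Qs z q i).card := card_le_card inter_subset_left
    have h2' : ((Qs z q i ∩ Zs F z o P).card : ℤ) ≤ (Qs z q i).card := by exact_mod_cast h2
    simp only [exc] at hexc
    linarith

end core

end Pool.Agent.helper52.DJ
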