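import Pool.Agent.helper52.DJ.Core

/-!
# The averaging argument: end of the proof
-/

namespace Pool.Agent.helper52.DJ

open Finset

variable {V ι : Type*} [Fintype V] [DecidableEq V] [Fintype ι]

section core
variable {F : Set (Finset V)} {p : ι → ℝ} {z : ι → V → ℤ} {q m : V → ℤ} {t : ℤ}

/-- candidates: relevant sets containing `u` and avoiding `b` (no condition for `none`) -/
def Cand (F : Set (Finset V)) (z : ι → V → ℤ) (q m : V → ℤ) (t : ℤ) (o : ι) (u : V) (b : Option V)
    (P : Finset V) : Prop :=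
  Rel F z q m t o P ∧ u ∈ P ∧ ∀ b0 ∈ b, b0 ∉ P

open Classical in
/-- a candidate with minimal surplus (the empty set if there is no candidate) -/
noncomputable def Ks (F : Set (Finset V)) (z : ι → V → ℤ) (q m : V → ℤ) (t : ℤ) (o : ι) (u : V)
    (b : Option V) : Finset V :=
  if h : (univ.filter fun P => Cand F z q m t o u b P).Nonempty then
    (exists_min_image _ (sur F z m t o) h).choose
  else ∅

omit [Fintype ι] in
lemma Ks_spec (F : Set (Finset V)) (z : ι → V → ℤ) (q m : V → ℤ) (t : ℤ) (o : ι) (u : V)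
    (b : Option V) (P : Finset V) (hP : Cand F z q m t o u b P) :
    Cand F z q m t o u b (Ks F z q m t o u b) ∧
      sur F z m t o (Ks F z q m t o u b) ≤ sur F z m t o P := by
  classical
  have h : (univ.filter fun P => Cand F z q m t o u b P).Nonempty :=
    ⟨P, by rw [mem_filter]; exact ⟨mem_univ _, hP⟩⟩
  have e : Ks F z q m t o u b = (exists_min_image _ (sur F z m t o) h).choose := by
    rw [Ks, dif_pos h]
  have hs := (exists_min_image _ (sur F z m t o) h).choose_spec
  rw [← e, mem_filter] at hs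
  exact ⟨hs.1.2, hs.2 P (by rw [mem_filter]; exact ⟨mem_univ _, hP⟩)⟩

omit [Fintype ι] in
lemma Ks_empty (F : Set (Finset V)) (z : ι → V → ℤ) (q m : V → ℤ) (t : ℤ) (o : ι) (u : V)
    (b : Option V) (h : ¬ ∃ P, Cand F z q m t o u b P) : Ks F z q m t o u b = ∅ := by
  classical
  rw [Ks, dif_neg]
  rintro ⟨P, hP⟩
  exact h ⟨P, (mem_filter.1 hP).2⟩

omit [Fintype ι] in
lemma not_rel_empty (F : Set (Finset V)) (z : ι → V → ℤ) (q m : V → ℤ) (t : ℤ) (o : ι) :
    ¬ Rel F z q m t o ∅ := by
  intro h
  have := h.pos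
  simp [sur, Zs] at this

open Classical in
/-- the weight of a relevant set -/
noncomputable def gs (F : Set (Finset V)) (z : ι → V → ℤ) (q m : V → ℤ) (t : ℤ) (o i : ι) (P : Finset V) : ℝ :=
  if Rel F z q m t o P then (exc F z q o i P : ℝ) / (sur F z m t o P + 1) else 0

lemma gs_nonneg (H : Sys F p z q m t) (o i : ι) (P : Finset V) : 0 ≤ gs F z q m t o i P := by
  rw [gs]
  split_ifs with h
  · have h1 : (0 : ℝ) ≤ exc F z q o i P := by exact_mod_cast exc_nonneg H o i h.sub
    have h2 : (1 : ℝ) ≤ sur F z m t o P := by exact_mod_cast h.pos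
    positivity
  · exact le_refl _

/-- the number of rounded up vertices -/
def rho (q : V → ℤ) : ℤ := - ∑ v, q v

lemma avg_gs (H : Sys F p z q m t) (o : ι) (P : Finset V) (hP : P.Nonempty) (hr : 2 ≤ rho q) :
    ∑ i, p i * gs F z q m t o i P ≤ (rho q - 2) / ((rho q - 1) * t) := by
  have ht := tpos H
  have hr' : (2 : ℝ) ≤ rho q := by exact_mod_cast hr
  by_cases h : Rel F z q m t o P
  · have e : ∀ i, p i * gs F z q m t o i P
        = (p i * (exc F z q o i P : ℝ)) / (sur F z m t o P + 1) := by
      intro i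
      rw [gs, if_pos h]; ring
    rw [sum_congr rfl fun i _ => e i, ← sum_div, avg_exc H o P]
    have h2 : (1 : ℝ) ≤ sur F z m t o P := by exact_mod_cast h.pos
    have h3 : (sur F z m t o P : ℝ) ≤ rho q - 2 := by
      have h4 := h.le
      have h5 : (1 : ℤ) ≤ P.card := by exact_mod_cast card_pos.2 hP
      have : sur F z m t o P ≤ rho q - 2 := by
        simp only [rho]; linarith
      exact_mod_cast this
    rw [div_div, div_le_div_iff₀ (by positivity) (by
      apply mul_pos _ ht; linarith)]
    have : (sur F z m t o P : ℝ) * (rho q - 1) ≤ (rho q - 2) * (sur F z m t o P + 1) := by nlinarith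
    nlinarith
  · have e : ∀ i, p i * gs F z q m t o i P = 0 := fun i => by rw [gs, if_neg h, mul_zero]
    rw [sum_congr rfl fun i _ => e i, sum_const_zero]
    apply div_nonneg
    · linarith
    · apply mul_nonneg _ ht.le; linarith

/-- the index set of the sets chosen for `u` -/
noncomputable def Idx (F : Set (Finset V)) (z : ι → V → ℤ) (q m : V → ℤ) (t : ℤ) (o : ι) (u : V) :
    Finset (Option V) :=
  insert none (((Ks F z q m t o u none).erase u).map Function.Embedding.some)

/-- the test functional -/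
noncomputable def Gs (F : Set (Finset V)) (z : ι → V → ℤ) (q m : V → ℤ) (t : ℤ) (o i : ι) : ℝ :=
  ∑ u ∈ Qs z q o, ∑ b ∈ Idx F z q m t o u, gs F z q m t o i (Ks F z q m t o u b)

lemma Gs_nonneg (H : Sys F p z q m t) (o i : ι) : 0 ≤ Gs F z q m t o i :=
  sum_nonneg fun _ _ => sum_nonneg fun _ _ => gs_nonneg H o i _

lemma avg_Gs (H : Sys F p z q m t) (o : ι) (hr : 2 ≤ rho q) :
    ∑ i, p i * Gs F z q m t o i
      ≤ rho q * ((rho q - 2) * ((rho q - 2) / ((rho q - 1) * t))) := by
  have ht := tpos H
  have hr' : (2 : ℝ) ≤ rho q := by exact_mod_cast hr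
  have hc0 : 0 ≤ ((rho q : ℝ) - 2) / ((rho q - 1) * t) := by
    apply div_nonneg
    · linarith
    · apply mul_nonneg _ ht.le; linarith
  have e : ∑ i, p i * Gs F z q m t o i
      = ∑ u ∈ Qs z q o, ∑ b ∈ Idx F z q m t o u, ∑ i, p i * gs F z q m t o i (Ks F z q m t o u b) := by
    simp only [Gs, mul_sum]
    rw [sum_comm]
    refine sum_congr rfl fun u _ => ?_
    rw [sum_comm]
  rw [e]
  have hu : ∀ u ∈ Qs z q o, ∑ b ∈ Idx F z q m t o u, ∑ i, p i * gs F z q m t o i (Ks F z q m t o u b)
      ≤ (rho q - 2) * ((rho q - 2) / ((rho q - 1) * t)) := by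
    intro u hu
    by_cases hcand : ∃ P, Cand F z q m t o u none P
    · obtain ⟨P, hP⟩ := hcand
      have hK := (Ks_spec F z q m t o u none P hP).1
      have hcard : ((Idx F z q m t o u).card : ℝ) ≤ rho q - 2 := by
        have h1 : (Idx F z q m t o u).card ≤ (Ks F z q m t o u none).card := by
          rw [Idx]
          refine (card_insert_le _ _).trans ?_
          rw [card_map, card_erase_of_mem hK.2.1]
          have : 0 < (Ks F z q m t o u none).card := card_pos.2 ⟨u, hK.2.1⟩
          omega
        have h2 := hK.1.le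
        have h3 := hK.1.pos
        have h1' : ((Idx F z q m t o u).card : ℤ) ≤ (Ks F z q m t o u none).card := by exact_mod_cast h1
        have : ((Idx F z q m t o u).card : ℤ) ≤ rho q - 2 := by
          simp only [rho]; linarith
        exact_mod_cast this
      have hterm : ∀ b ∈ Idx F z q m t o u, ∑ i, p i * gs F z q m t o i (Ks F z q m t o u b)
          ≤ (rho q - 2) / ((rho q - 1) * t) := by
        intro b _
        by_cases hb : ∃ P, Cand F z q m t o u b P
        · obtain ⟨P', hP'⟩ := hb
          have := (Ks_spec F z q m t o u b P' hP').1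
          exact avg_gs H o _ ⟨u, this.2.1⟩ hr
        · rw [Ks_empty F z q m t o u b hb]
          have e : ∀ i, p i * gs F z q m t o i ∅ = 0 := fun i => by
            rw [gs, if_neg (not_rel_empty F z q m t o), mul_zero]
          rw [sum_congr rfl fun i _ => e i, sum_const_zero]
          exact hc0
      refine (sum_le_sum hterm).trans ?_
      rw [sum_const, nsmul_eq_mul]
      exact mul_le_mul_of_nonneg_right hcard hc0
    · have hK := Ks_empty F z q m t o u none hcand
      have e : Idx F z q m t o u = {none} := by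
        rw [Idx, hK]; simp
      rw [e, sum_singleton, hK]
      have e : ∀ i, p i * gs F z q m t o i ∅ = 0 := fun i => by
        rw [gs, if_neg (not_rel_empty F z q m t o), mul_zero]
      rw [sum_congr rfl fun i _ => e i, sum_const_zero]
      apply mul_nonneg _ hc0
      linarith
  refine (sum_le_sum hu).trans ?_
  rw [sum_const, nsmul_eq_mul]
  have hQ := card_Q H o
  have hQ' : ((Qs z q o).card : ℝ) = rho q := by
    have : ((Qs z q o).card : ℤ) = rho q := hQ
    exact_mod_cast this
  rw [hQ']

lemma one_le_Gs (H : Sys F p z q m t) (o i : ι) {P : Finset V} (hP : Rel F z q m t o P)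
    (hexc : sur F z m t o P + 1 ≤ exc F z q o i P) : 1 ≤ Gs F z q m t o i := by
  classical
  obtain ⟨σ, h1, h2, h3⟩ := exists_sigma H o i
  set B : V → Finset V := fun u => (Qs z q o \ P).filter fun b => σ b ∈ above (tgt F z o) u with hB
  have hsp : (1 : ℝ) ≤ sur F z m t o P := by exact_mod_cast hP.pos
  have hsp1 : (0 : ℝ) < sur F z m t o P + 1 := by linarith
  -- excess as a count
  have hcount : ∀ P' : Finset V, P' ⊆ Qs z q o → exc F z q o i P'
      = (((Qs z q o \ P').filter fun b => σ b ∈ Zs F z o P').card : ℤ) := by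
    intro P' hP'
    rw [exc, card_inter_Zs H o i h1 h2 h3 hP']; push_cast; ring
  -- the key inequality for one `u`
  have hkey : ∀ u ∈ P, ((B u).card : ℝ) / (sur F z m t o P + 1)
      ≤ ∑ b ∈ Idx F z q m t o u, gs F z q m t o i (Ks F z q m t o u b) := by
    intro u hu
    have hcand : Cand F z q m t o u none P := ⟨hP, hu, fun b0 hb0 => by simp at hb0⟩
    obtain ⟨hK, hKs⟩ := Ks_spec F z q m t o u none P hcand
    set K := Ks F z q m t o u none with hKdef
    have hsplit : (B u).card = ((B u).filter fun b => b ∉ K).card + ((B u).filter fun b => b ∈ K).card := by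
      have := card_filter_add_card_filter_not (s := B u) (fun b => b ∈ K)
      omega
    have hsum : ∑ b ∈ Idx F z q m t o u, gs F z q m t o i (Ks F z q m t o u b)
        = gs F z q m t o i K + ∑ b ∈ K.erase u, gs F z q m t o i (Ks F z q m t o u (some b)) := by
      rw [Idx, sum_insert (by simp), sum_map]
      rfl
    rw [hsum, hsplit]
    push_cast
    rw [add_div]
    apply add_le_add
    · -- type 0
      have hKr : (0 : ℝ) < sur F z m t o K + 1 := by
        have : (1 : ℝ) ≤ sur F z m t o K := by exact_mod_cast hK.1.pos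
        linarith
      rw [gs, if_pos hK.1]
      have hc : (((B u).filter fun b => b ∉ K).card : ℝ) ≤ exc F z q o i K := by
        rw [hcount K hK.1.sub]
        have : ((B u).filter fun b => b ∉ K).card
            ≤ ((Qs z q o \ K).filter fun b => σ b ∈ Zs F z o K).card := by
          refine card_le_card fun b hb => ?_
          simp only [hB, mem_filter, mem_sdiff] at hb ⊢
          refine ⟨⟨hb.1.1.1, hb.2⟩, ?_⟩
          simp only [Zs, mem_biUnion]
          exact ⟨u, hK.2.1, hb.1.2⟩
        exact_mod_cast this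
      have hss : (sur F z m t o K : ℝ) + 1 ≤ sur F z m t o P + 1 := by
        have : (sur F z m t o K : ℝ) ≤ sur F z m t o P := by exact_mod_cast hKs
        linarith
      calc (((B u).filter fun b => b ∉ K).card : ℝ) / (sur F z m t o P + 1)
          ≤ (((B u).filter fun b => b ∉ K).card : ℝ) / (sur F z m t o K + 1) :=
            div_le_div_of_nonneg_left (by positivity) hKr hss
        _ ≤ (exc F z q o i K : ℝ) / (sur F z m t o K + 1) := by
            apply div_le_div_of_nonneg_right hc hKr.le
    · -- type 1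
      have hone : ∀ b ∈ (B u).filter fun b => b ∈ K, 1 / ((sur F z m t o P : ℝ) + 1)
          ≤ gs F z q m t o i (Ks F z q m t o u (some b)) := by
        intro b hb
        simp only [hB, mem_filter, mem_sdiff] at hb
        have hcb : Cand F z q m t o u (some b) P := ⟨hP, hu, fun b0 hb0 => by
          rw [Option.mem_some_iff] at hb0
          rw [← hb0]; exact hb.1.1.2⟩
        obtain ⟨hL, hLs⟩ := Ks_spec F z q m t o u (some b) P hcb
        set L := Ks F z q m t o u (some b) with hLdef
        have hbL : b ∉ L := hL.2.2 b (by simp)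
        have hLr : (0 : ℝ) < sur F z m t o L + 1 := by
          have : (1 : ℝ) ≤ sur F z m t o L := by exact_mod_cast hL.1.pos
          linarith
        have hc : (1 : ℝ) ≤ exc F z q o i L := by
          rw [hcount L hL.1.sub]
          have : 0 < ((Qs z q o \ L).filter fun b => σ b ∈ Zs F z o L).card := by
            refine card_pos.2 ⟨b, ?_⟩
            simp only [mem_filter, mem_sdiff]
            refine ⟨⟨hb.1.1.1, hbL⟩, ?_⟩
            simp only [Zs, mem_biUnion]
            exact ⟨u, hL.2.1, hb.1.2⟩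
          exact_mod_cast this
        have hss : (sur F z m t o L : ℝ) + 1 ≤ sur F z m t o P + 1 := by
          have : (sur F z m t o L : ℝ) ≤ sur F z m t o P := by exact_mod_cast hLs
          linarith
        rw [gs, if_pos hL.1]
        calc 1 / ((sur F z m t o P : ℝ) + 1) ≤ 1 / ((sur F z m t o L : ℝ) + 1) :=
              div_le_div_of_nonneg_left (by norm_num) hLr hss
          _ ≤ (exc F z q o i L : ℝ) / (sur F z m t o L + 1) :=
              div_le_div_of_nonneg_right hc hLr.le
      have hsub : (B u).filter (fun b => b ∈ K) ⊆ K.erase u := by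
        intro b hb
        rw [mem_filter] at hb
        rw [mem_erase]
        refine ⟨?_, hb.2⟩
        rintro rfl
        have := hb.1
        simp only [hB, mem_filter, mem_sdiff] at this
        exact this.1.2 hu
      calc (((B u).filter fun b => b ∈ K).card : ℝ) / (sur F z m t o P + 1)
          = ∑ b ∈ (B u).filter (fun b => b ∈ K), 1 / ((sur F z m t o P : ℝ) + 1) := by
            rw [sum_const, nsmul_eq_mul]; ring
        _ ≤ ∑ b ∈ (B u).filter (fun b => b ∈ K), gs F z q m t o i (Ks F z q m t o u (some b)) :=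
            sum_le_sum hone
        _ ≤ ∑ b ∈ K.erase u, gs F z q m t o i (Ks F z q m t o u (some b)) :=
            sum_le_sum_of_subset_of_nonneg hsub fun b _ _ => gs_nonneg H o i _
  have hBsum : (sur F z m t o P : ℝ) + 1 ≤ ∑ u ∈ P, ((B u).card : ℝ) := by
    have e : (Qs z q o \ P).filter (fun b => σ b ∈ Zs F z o P) = P.biUnion B := by
      ext b
      simp only [hB, Zs, mem_filter, mem_sdiff, mem_biUnion]
      tauto
    have h4 := hcount P hP.sub
    rw [e] at h4
    have h5 : (P.biUnion B).card ≤ ∑ u ∈ P, (B u).card := card_biUnion_le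
    have h6 : sur F z m t o P + 1 ≤ ∑ u ∈ P, ((B u).card : ℤ) := by
      rw [h4] at hexc
      have : ((P.biUnion B).card : ℤ) ≤ ((∑ u ∈ P, (B u).card : ℕ) : ℤ) := by exact_mod_cast h5
      push_cast at this
      linarith
    exact_mod_cast h6
  calc (1 : ℝ) = (sur F z m t o P + 1) / (sur F z m t o P + 1) := by
        rw [div_self hsp1.ne']
    _ ≤ (∑ u ∈ P, ((B u).card : ℝ)) / (sur F z m t o P + 1) :=
        div_le_div_of_nonneg_right hBsum hsp1.le
    _ = ∑ u ∈ P, ((B u).card : ℝ) / (sur F z m t o P + 1) := by rw [sum_div]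
    _ ≤ ∑ u ∈ P, ∑ b ∈ Idx F z q m t o u, gs F z q m t o i (Ks F z q m t o u b) := sum_le_sum hkey
    _ ≤ Gs F z q m t o i :=
        sum_le_sum_of_subset_of_nonneg hP.sub fun u _ _ => sum_nonneg fun _ _ => gs_nonneg H o i _

/-- **The averaging theorem.** -/
theorem exists_good_index (H : Sys F p z q m t) (hrho : rho q * (rho q - 2) ≤ t) :
    ∃ i, ∀ U ∈ F, ∑ v ∈ U, z i v ≤ t * ∑ v ∈ U, q v + ∑ v ∈ U, m v - t + 1 := by
  classical
  by_contra hcon
  push Not at hcon
  choose U hUF hU using hcon
  have hbad : ∀ i, t * ∑ v ∈ U i, q v + ∑ v ∈ U i, m v - t + 2 ≤ ∑ v ∈ U i, z i v := fun i => by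
    have := hU i; linarith
  have ht := tpos H
  have ht2 := H.t2
  have hne : Nonempty ι := by
    by_contra h
    rw [not_nonempty_iff] at h
    have := H.psum
    simp at this
  -- surplus of `U i`
  set s : ι → ℤ := fun i => t * ∑ v ∈ U i, q v + ∑ v ∈ U i, m v - t with hs
  have havg : ∀ i, ∑ j, p j * (((∑ v ∈ U i, z j v : ℤ) : ℝ) - 1) = (s i : ℝ) / t := by
    intro i
    have h := avg_z H (U i)
    simp only [mul_sub, mul_one, sum_sub_distrib, H.psum, h, hs]
    push_cast
    field_simp
  have hs2 : ∀ i, s i ≤ rho q - 2 := by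
    intro i
    have h1 := hbad i
    have h2 := gamma_pos H i (U i) h1
    have h3 := z_sum H i (U i)
    have h4 := card_Q H i
    have h5 : ((Qs z q i ∩ U i).card : ℤ) ≤ (Qs z q i).card := by
      exact_mod_cast card_le_card inter_subset_left
    simp only [hs, rho]
    linarith
  have hs0 : ∀ i, 0 ≤ s i := by
    intro i
    have h := havg i
    have h1 : 0 ≤ ∑ j, p j * (((∑ v ∈ U i, z j v : ℤ) : ℝ) - 1) := by
      refine sum_nonneg fun j _ => mul_nonneg (H.ppos j).le ?_
      have : (1 : ℝ) ≤ ((∑ v ∈ U i, z j v : ℤ) : ℝ) := by exact_mod_cast H.zcut j (U i) (hUF i)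
      linarith
    rw [h] at h1
    have h2 : (0 : ℝ) ≤ s i := by
      by_contra hcon
      push Not at hcon
      have := div_neg_of_neg_of_pos hcon ht
      linarith
    exact_mod_cast h2
  obtain ⟨i0⟩ := hne
  have hr : 2 ≤ rho q := by
    have := hs2 i0
    have := hs0 i0
    linarith
  have hr' : (2 : ℝ) ≤ rho q := by exact_mod_cast hr
  -- choice of the index `o`
  have hdouble : ∑ j, p j * (∑ i, p i * (((∑ v ∈ U i, z j v : ℤ) : ℝ) - 1)) ≤ (rho q - 2) / t := by
    have e : ∑ j, p j * (∑ i, p i * (((∑ v ∈ U i, z j v : ℤ) : ℝ) - 1))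
        = ∑ i, p i * ((s i : ℝ) / t) := by
      simp only [mul_sum]
      rw [sum_comm]
      refine sum_congr rfl fun i _ => ?_
      rw [← havg i, mul_sum]
      refine sum_congr rfl fun j _ => ?_
      ring
    rw [e]
    have : ∑ i, p i * ((s i : ℝ) / t) ≤ ∑ i, p i * ((rho q - 2 : ℝ) / t) := by
      refine sum_le_sum fun i _ => mul_le_mul_of_nonneg_left ?_ (H.ppos i).le
      apply div_le_div_of_nonneg_right _ ht.le
      exact_mod_cast hs2 i
    rw [← sum_mul, H.psum, one_mul] at this
    exact this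
  obtain ⟨o, ho⟩ : ∃ o, ∑ i, p i * (((∑ v ∈ U i, z o v : ℤ) : ℝ) - 1) ≤ (rho q - 2) / t := by
    by_contra hcon
    push Not at hcon
    have : ∑ j, p j * ((rho q - 2 : ℝ) / t)
        < ∑ j, p j * (∑ i, p i * (((∑ v ∈ U i, z j v : ℤ) : ℝ) - 1)) := by
      refine sum_lt_sum (fun j _ => mul_le_mul_of_nonneg_left (hcon j).le (H.ppos j).le)
        ⟨i0, mem_univ _, mul_lt_mul_of_pos_left (hcon i0) (H.ppos i0)⟩
    rw [← sum_mul, H.psum, one_mul] at this
    linarith
  -- lower bound for the test functional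
  have hG : ∀ i, 1 - (((∑ v ∈ U i, z o v : ℤ) : ℝ) - 1) ≤ Gs F z q m t o i := by
    intro i
    have h1 := H.zcut o (U i) (hUF i)
    by_cases h : ∑ v ∈ U i, z o v = 1
    · rw [h]
      obtain ⟨hR, hE⟩ := rel_of_bad H o i (hUF i) h (hbad i)
      have := one_le_Gs H o i hR hE
      push_cast
      linarith
    · have h2 : 2 ≤ ∑ v ∈ U i, z o v := by
        have : 1 ≠ ∑ v ∈ U i, z o v := fun e => h e.symm
        omega
      have h3 : (2 : ℝ) ≤ ((∑ v ∈ U i, z o v : ℤ) : ℝ) := by exact_mod_cast h2
      have := Gs_nonneg H o i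
      linarith
  have hlow : 1 - (rho q - 2 : ℝ) / t ≤ ∑ i, p i * Gs F z q m t o i := by
    have h1 : ∑ i, p i * (1 - (((∑ v ∈ U i, z o v : ℤ) : ℝ) - 1)) ≤ ∑ i, p i * Gs F z q m t o i :=
      sum_le_sum fun i _ => mul_le_mul_of_nonneg_left (hG i) (H.ppos i).le
    have h2 : ∑ i, p i * (1 - (((∑ v ∈ U i, z o v : ℤ) : ℝ) - 1))
        = 1 - ∑ i, p i * (((∑ v ∈ U i, z o v : ℤ) : ℝ) - 1) := by
      simp only [mul_sub (p _) 1, mul_one, sum_sub_distrib, H.psum]
    linarith
  have hup := avg_Gs H o hr
  have hfin := hlow.trans hup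
  have hρ1 : (0 : ℝ) < rho q - 1 := by linarith
  have hrhoR : (rho q : ℝ) * (rho q - 2) ≤ t := by exact_mod_cast hrho
  have hfin2 : (t - (rho q - 2 : ℝ)) * (rho q - 1) ≤ rho q * (rho q - 2) * (rho q - 2) := by
    have e1 : (1 - (rho q - 2 : ℝ) / t) * ((rho q - 1) * t) = (t - (rho q - 2 : ℝ)) * (rho q - 1) := by
      field_simp
    have e2 : (rho q * ((rho q - 2) * ((rho q - 2) / ((rho q - 1) * t))) : ℝ) * ((rho q - 1) * t)
        = rho q * (rho q - 2) * (rho q - 2) := by
      field_simp
    rw [← e1, ← e2]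
    exact mul_le_mul_of_nonneg_right hfin (by positivity)
  have h1 := mul_le_mul_of_nonneg_right hrhoR hρ1.le
  have h2 : (rho q : ℝ) - 2 ≤ 0 := by nlinarith
  have h3 : (rho q : ℝ) = 2 := le_antisymm (by linarith) hr'
  rw [h3] at hfin2
  norm_num at hfin2
  linarith

end core

end Pool.Agent.helper52.DJ
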