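import Mathlib

/-!
# Hierarchical splitting along minimum cuts

For symmetric nonnegative weights `g` on a finite set `N` there is a function `φ` with
`φ (b, u) ≥ 1 / (g(P) + 1)` for all `P` in a given family separating `b` from `u`, and `∑ g φ` at most
`2 (|N| - 1) R / (R + 1)` if all cuts in the family have weight less than `R`.
-/

namespace Pool.Agent.helper52.DJ

open Finset

variable {V : Type*} [DecidableEq V]

/-- the weight between two sets -/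
def cutw (g : V → V → ℝ) (A B : Finset V) : ℝ := ∑ b ∈ A, ∑ u ∈ B, g b u

lemma cutw_nonneg {g : V → V → ℝ} (hg : ∀ b u, 0 ≤ g b u) (A B : Finset V) : 0 ≤ cutw g A B :=
  sum_nonneg fun _ _ => sum_nonneg fun _ _ => hg _ _

lemma cutw_mono {g : V → V → ℝ} (hg : ∀ b u, 0 ≤ g b u) {A A' B B' : Finset V} (hA : A ⊆ A')
    (hB : B ⊆ B') : cutw g A B ≤ cutw g A' B' := by
  unfold cutw
  refine (sum_le_sum fun b _ => sum_le_sum_of_subset_of_nonneg hB fun u _ _ => hg b u).trans ?_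
  exact sum_le_sum_of_subset_of_nonneg hA fun b _ _ => sum_nonneg fun u _ => hg b u

lemma cutw_comm {g : V → V → ℝ} (hs : ∀ b u, g b u = g u b) (A B : Finset V) :
    cutw g A B = cutw g B A := by
  unfold cutw
  rw [sum_comm]
  exact sum_congr rfl fun u _ => sum_congr rfl fun b _ => hs b u

theorem exists_split (g : V → V → ℝ) (hg : ∀ b u, 0 ≤ g b u) (hs : ∀ b u, g b u = g u b)
    (𝓡 : Set (Finset V)) (R : ℝ) (hR : 0 < R) :
    ∀ (n : ℕ) (N : Finset V), N.card = n → N.Nonempty → (∀ P ∈ 𝓡, cutw g (N ∩ P) (N \ P) < R) →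
      ∃ φ : V → V → ℝ, (∀ b u, 0 ≤ φ b u) ∧
        (∀ P ∈ 𝓡, ∀ b ∈ N \ P, ∀ u ∈ N ∩ P, 1 / (cutw g (N ∩ P) (N \ P) + 1) ≤ φ b u ∧
          1 / (cutw g (N ∩ P) (N \ P) + 1) ≤ φ u b) ∧
        ∑ b ∈ N, ∑ u ∈ N, g b u * φ b u ≤ 2 * ((n : ℝ) - 1) * (R / (R + 1)) ∧
        (2 ≤ n → ∑ b ∈ N, ∑ u ∈ N, g b u * φ b u < 2 * ((n : ℝ) - 1) * (R / (R + 1))) := by
  classical
  intro n
  induction n using Nat.strong_induction_on with
  | _ n ih =>
  intro N hn hne hcut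
  have hn1 : 1 ≤ n := by rw [← hn]; exact card_pos.2 hne
  have hn1' : (1 : ℝ) ≤ n := by exact_mod_cast hn1
  have hRR : 0 < R / (R + 1) := by positivity
  by_cases hsplit : ∃ P ∈ 𝓡, (N ∩ P).Nonempty ∧ (N \ P).Nonempty
  swap
  · refine ⟨fun _ _ => 0, fun _ _ => le_refl _, ?_, ?_, ?_⟩
    · intro P hP b hb u hu
      exact absurd ⟨P, hP, ⟨u, hu⟩, ⟨b, hb⟩⟩ hsplit
    · simp only [mul_zero, sum_const_zero]
      have : (0 : ℝ) ≤ (n : ℝ) - 1 := by linarith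
      positivity
    · intro h2
      simp only [mul_zero, sum_const_zero]
      have : (2 : ℝ) ≤ n := by exact_mod_cast h2
      have : (0 : ℝ) < (n : ℝ) - 1 := by linarith
      positivity
  obtain ⟨P0, hP0, hP0a, hP0b⟩ := hsplit
  -- a minimum split
  obtain ⟨A, hA, hAmin⟩ := exists_min_image
    ((N.powerset).filter fun A => A.Nonempty ∧ (N \ A).Nonempty) (fun A => cutw g A (N \ A))
    ⟨N ∩ P0, by
      rw [mem_filter, mem_powerset]
      refine ⟨inter_subset_left, hP0a, ?_⟩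
      rwa [sdiff_inter_self_left]⟩
  rw [mem_filter, mem_powerset] at hA
  obtain ⟨hAN, hAne, hBne⟩ := hA
  set B : Finset V := N \ A with hB
  have hBN : B ⊆ N := sdiff_subset
  have hAB : Disjoint A B := disjoint_sdiff
  have hABN : A ∪ B = N := union_sdiff_of_subset hAN
  have hmin : ∀ P, (N ∩ P).Nonempty → (N \ P).Nonempty → cutw g A B ≤ cutw g (N ∩ P) (N \ P) := by
    intro P h1 h2
    have := hAmin (N ∩ P) (by
      rw [mem_filter, mem_powerset]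
      refine ⟨inter_subset_left, h1, ?_⟩
      rwa [sdiff_inter_self_left])
    rwa [sdiff_inter_self_left] at this
  have hcA : A.card < n := by
    rw [← hn]; exact card_lt_card ⟨hAN, fun h => by
      obtain ⟨x, hx⟩ := hBne
      exact (mem_sdiff.1 hx).2 (h (mem_sdiff.1 hx).1)⟩
  have hcB : B.card < n := by
    rw [← hn]; exact card_lt_card ⟨hBN, fun h => by
      obtain ⟨x, hx⟩ := hAne
      exact (mem_sdiff.1 (h (hAN hx))).2 hx⟩
  have hcAB : A.card + B.card = n := by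
    rw [← hn, ← hABN, card_union_of_disjoint hAB]
  have hsub : ∀ C ⊆ N, ∀ P, cutw g (C ∩ P) (C \ P) ≤ cutw g (N ∩ P) (N \ P) := by
    intro C hC P
    exact cutw_mono hg (inter_subset_inter_right hC) (sdiff_subset_sdiff hC (Subset.refl _))
  obtain ⟨φA, hA0, hA1, hA2, _⟩ := ih A.card hcA A rfl hAne
    fun P hP => (hsub A hAN P).trans_lt (hcut P hP)
  obtain ⟨φB, hB0, hB1, hB2, _⟩ := ih B.card hcB B rfl hBne
    fun P hP => (hsub B hBN P).trans_lt (hcut P hP)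
  set γ : ℝ := cutw g A B with hγ
  have hγ0 : 0 ≤ γ := cutw_nonneg hg _ _
  have hγR : γ < R := (hmin P0 hP0a hP0b).trans_lt (hcut P0 hP0)
  set φ : V → V → ℝ := fun b u =>
    if b ∈ A ∧ u ∈ A then φA b u else if b ∈ B ∧ u ∈ B then φB b u else 1 / (γ + 1) with hφ
  have hφA : ∀ b ∈ A, ∀ u ∈ A, φ b u = φA b u := fun b hb u hu => by
    simp only [hφ]; rw [if_pos ⟨hb, hu⟩]
  have hφB : ∀ b ∈ B, ∀ u ∈ B, φ b u = φB b u := fun b hb u hu => by
    simp only [hφ]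
    rw [if_neg (fun h => disjoint_left.1 hAB h.1 hb), if_pos ⟨hb, hu⟩]
  have hφAB : ∀ b ∈ A, ∀ u ∈ B, φ b u = 1 / (γ + 1) := fun b hb u hu => by
    simp only [hφ]
    rw [if_neg (fun h => disjoint_left.1 hAB h.2 hu), if_neg (fun h => disjoint_left.1 hAB hb h.1)]
  have hφBA : ∀ b ∈ B, ∀ u ∈ A, φ b u = 1 / (γ + 1) := fun b hb u hu => by
    simp only [hφ]
    rw [if_neg (fun h => disjoint_left.1 hAB h.1 hb), if_neg (fun h => disjoint_left.1 hAB hu h.2)]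
  -- the sum
  have hsum : ∑ b ∈ N, ∑ u ∈ N, g b u * φ b u
      = ∑ b ∈ A, ∑ u ∈ A, g b u * φA b u + ∑ b ∈ B, ∑ u ∈ B, g b u * φB b u
        + 2 * (γ / (γ + 1)) := by
    have e1 : ∀ f : V → ℝ, ∑ b ∈ N, f b = ∑ b ∈ A, f b + ∑ b ∈ B, f b := by
      intro f; rw [← hABN, sum_union hAB]
    rw [e1]
    simp only [e1]
    rw [sum_add_distrib, sum_add_distrib]
    have c1 : ∑ b ∈ A, ∑ u ∈ A, g b u * φ b u = ∑ b ∈ A, ∑ u ∈ A, g b u * φA b u :=
      sum_congr rfl fun b hb => sum_congr rfl fun u hu => by rw [hφA b hb u hu]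
    have c2 : ∑ b ∈ B, ∑ u ∈ B, g b u * φ b u = ∑ b ∈ B, ∑ u ∈ B, g b u * φB b u :=
      sum_congr rfl fun b hb => sum_congr rfl fun u hu => by rw [hφB b hb u hu]
    have c3 : ∑ b ∈ A, ∑ u ∈ B, g b u * φ b u = γ / (γ + 1) := by
      have : ∑ b ∈ A, ∑ u ∈ B, g b u * φ b u = ∑ b ∈ A, ∑ u ∈ B, g b u * (1 / (γ + 1)) :=
        sum_congr rfl fun b hb => sum_congr rfl fun u hu => by rw [hφAB b hb u hu]
      rw [this]
      simp only [← sum_mul]
      rw [hγ, cutw]; ring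
    have c4 : ∑ b ∈ B, ∑ u ∈ A, g b u * φ b u = γ / (γ + 1) := by
      have : ∑ b ∈ B, ∑ u ∈ A, g b u * φ b u = ∑ b ∈ B, ∑ u ∈ A, g b u * (1 / (γ + 1)) :=
        sum_congr rfl fun b hb => sum_congr rfl fun u hu => by rw [hφBA b hb u hu]
      rw [this]
      simp only [← sum_mul]
      have : ∑ b ∈ B, ∑ u ∈ A, g b u = γ := by
        rw [hγ, cutw_comm hs A B]; rfl
      rw [this]; ring
    rw [c1, c2, c3, c4]; ring
  have hlt : γ / (γ + 1) < R / (R + 1) := by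
    rw [div_lt_div_iff₀ (by linarith) (by linarith)]
    nlinarith
  have hcABr : (A.card : ℝ) + B.card = n := by exact_mod_cast hcAB
  have hstrict : ∑ b ∈ N, ∑ u ∈ N, g b u * φ b u < 2 * ((n : ℝ) - 1) * (R / (R + 1)) := by
    rw [hsum]
    have : 2 * ((n : ℝ) - 1) * (R / (R + 1)) = 2 * ((A.card : ℝ) - 1) * (R / (R + 1))
        + 2 * ((B.card : ℝ) - 1) * (R / (R + 1)) + 2 * (R / (R + 1)) := by
      rw [← hcABr]; ring
    rw [this]
    linarith
  refine ⟨φ, ?_, ?_, hstrict.le, fun _ => hstrict⟩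
  · intro b u
    simp only [hφ]
    split_ifs
    · exact hA0 b u
    · exact hB0 b u
    · positivity
  · intro P hP b hb u hu
    have hb' := mem_sdiff.1 hb
    have hu' := mem_inter.1 hu
    have hNP := cutw_nonneg hg (N ∩ P) (N \ P)
    have hγle := hmin P ⟨u, hu⟩ ⟨b, hb⟩
    have hle1 : 1 / (cutw g (N ∩ P) (N \ P) + 1) ≤ 1 / (γ + 1) := by
      apply one_div_le_one_div_of_le (by linarith)
      linarith
    have hb2 : b ∈ A ∨ b ∈ B := by rw [← mem_union, hABN]; exact hb'.1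
    have hu2 : u ∈ A ∨ u ∈ B := by rw [← mem_union, hABN]; exact hu'.1
    have hle2 : ∀ C ⊆ N, 1 / (cutw g (N ∩ P) (N \ P) + 1) ≤ 1 / (cutw g (C ∩ P) (C \ P) + 1) := by
      intro C hC
      apply one_div_le_one_div_of_le
      · have := cutw_nonneg hg (C ∩ P) (C \ P); linarith
      · have := hsub C hC P; linarith
    rcases hb2 with hb2 | hb2 <;> rcases hu2 with hu2 | hu2
    · have := hA1 P hP b (mem_sdiff.2 ⟨hb2, hb'.2⟩) u (mem_inter.2 ⟨hu2, hu'.2⟩)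
      rw [hφA b hb2 u hu2, hφA u hu2 b hb2]
      exact ⟨(hle2 A hAN).trans this.1, (hle2 A hAN).trans this.2⟩
    · rw [hφAB b hb2 u hu2, hφBA u hu2 b hb2]
      exact ⟨hle1, hle1⟩
    · rw [hφBA b hb2 u hu2, hφAB u hu2 b hb2]
      exact ⟨hle1, hle1⟩
    · have := hB1 P hP b (mem_sdiff.2 ⟨hb2, hb'.2⟩) u (mem_inter.2 ⟨hu2, hu'.2⟩)
      rw [hφB b hb2 u hu2, hφB u hu2 b hb2]
      exact ⟨(hle2 B hBN).trans this.1, (hle2 B hBN).trans this.2⟩

/-- the elementary inequality behind the linear bound -/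
lemma kernel_ineq {W : Type*} [DecidableEq W] (Z K : Finset W) (hKZ : K ⊆ Z) (m θ : W → ℝ)
    (hm0 : ∀ v ∈ Z, 0 ≤ m v) (hm1 : ∀ v ∈ K, 1 ≤ m v) (hθ0 : ∀ v ∈ Z, 0 ≤ θ v)
    (hθ1 : ∀ v ∈ Z, θ v ≤ 1) (hs : ∑ v ∈ Z, m v * θ v + 1 ≤ K.card) :
    ∑ v ∈ Z, m v * θ v * (1 - θ v) + 1 ≤ ∑ v ∈ K, (1 - θ v) * (1 + θ v) := by
  have key : ∀ v ∈ Z, m v * θ v * (1 - θ v) ≤ m v * θ v + (if v ∈ K then - θ v ^ 2 else 0) := by
    intro v hv
    have a0 := hθ0 v hv
    have a1 := hθ1 v hv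
    have a2 := hm0 v hv
    split_ifs with h
    · have a3 := hm1 v h
      nlinarith [mul_nonneg (sub_nonneg.2 a3) (mul_nonneg a0 a0)]
    · nlinarith [mul_nonneg a2 (mul_nonneg a0 a0)]
  have h1 := sum_le_sum key
  rw [sum_add_distrib] at h1
  have h2 : ∑ v ∈ Z, (if v ∈ K then - θ v ^ 2 else 0) = ∑ v ∈ K, - θ v ^ 2 := by
    rw [← sum_filter]
    congr 1
    ext v
    simp only [mem_filter]
    exact ⟨fun h => h.2, fun h => ⟨hKZ h, h⟩⟩
  rw [h2] at h1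
  have h3 : ∑ v ∈ K, (1 - θ v) * (1 + θ v) = K.card + ∑ v ∈ K, - θ v ^ 2 := by
    rw [Finset.card_eq_sum_ones]
    push_cast
    rw [← sum_add_distrib]
    refine sum_congr rfl fun v _ => ?_
    ring
  rw [h3]
  linarith

end Pool.Agent.helper52.DJ
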