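import Pool.Agent.helper52.DJ.Core2
import Pool.Agent.helper52.DJ.Split

/-!
# The linear bound: `4 (ρ - 2) ≤ t` suffices
-/

namespace Pool.Agent.helper52.DJ

open Finset

variable {V ι : Type*} [Fintype V] [DecidableEq V] [Fintype ι]

section core
variable {F : Set (Finset V)} {p : ι → ℝ} {z : ι → V → ℤ} {q m : V → ℤ} {t : ℤ}

/-- common first part: a good index `o` -/
theorem exists_base_index (H : Sys F p z q m t) (U : ι → Finset V) (hUF : ∀ i, U i ∈ F)
    (hbad : ∀ i, t * ∑ v ∈ U i, q v + ∑ v ∈ U i, m v - t + 2 ≤ ∑ v ∈ U i, z i v) :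
    2 ≤ rho q ∧ ∃ o, ∑ i, p i * (((∑ v ∈ U i, z o v : ℤ) : ℝ) - 1) ≤ (rho q - 2) / t := by
  classical
  have ht := tpos H
  have ht2 := H.t2
  have hne : Nonempty ι := by
    by_contra h
    rw [not_nonempty_iff] at h
    have := H.psum
    simp at this
  set s : ι → ℤ := fun i => t * ∑ v ∈ U i, q v + ∑ v ∈ U i, m v - t with hs
  have havg : ∀ i, ∑ j, p j * (((∑ v ∈ U i, z j v : ℤ) : ℝ) - 1) = (s i : ℝ) / t := by
    intro i
    have h := avg_z H (U i)
    simp only [mul_sub, mul_one, sum_sub_distrib, H.psum, h, hs]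
    push_cast
    field_simp
  have hs2 : ∀ i, s i ≤ rho q - 2 := by
    intro i
    have h1 := hbad i
    have h2 := gamma_pos H i (U i) h1
    have h3 := z_sum H i (U i)
    have h4 := card_Q H i
    have h5 : ((Qs z q i ∩ U i).card : ℤ) ≤ (Qs z q i).card := by
      exact_mod_cast card_le_card inter_subset_left
    simp only [hs, rho]
    linarith
  have hs0 : ∀ i, 0 ≤ s i := by
    intro i
    have h := havg i
    have h1 : 0 ≤ ∑ j, p j * (((∑ v ∈ U i, z j v : ℤ) : ℝ) - 1) := by
      refine sum_nonneg fun j _ => mul_nonneg (H.ppos j).le ?_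
      have : (1 : ℝ) ≤ ((∑ v ∈ U i, z j v : ℤ) : ℝ) := by exact_mod_cast H.zcut j (U i) (hUF i)
      linarith
    rw [h] at h1
    have h2 : (0 : ℝ) ≤ s i := by
      by_contra hcon
      push Not at hcon
      have := div_neg_of_neg_of_pos hcon ht
      linarith
    exact_mod_cast h2
  obtain ⟨i0⟩ := hne
  have hr : 2 ≤ rho q := by
    have := hs2 i0
    have := hs0 i0
    linarith
  refine ⟨hr, ?_⟩
  have hdouble : ∑ j, p j * (∑ i, p i * (((∑ v ∈ U i, z j v : ℤ) : ℝ) - 1)) ≤ (rho q - 2) / t := by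
    have e : ∑ j, p j * (∑ i, p i * (((∑ v ∈ U i, z j v : ℤ) : ℝ) - 1))
        = ∑ i, p i * ((s i : ℝ) / t) := by
      simp only [mul_sum]
      rw [sum_comm]
      refine sum_congr rfl fun i _ => ?_
      rw [← havg i, mul_sum]
      refine sum_congr rfl fun j _ => ?_
      ring
    rw [e]
    have : ∑ i, p i * ((s i : ℝ) / t) ≤ ∑ i, p i * ((rho q - 2 : ℝ) / t) := by
      refine sum_le_sum fun i _ => mul_le_mul_of_nonneg_left ?_ (H.ppos i).le
      apply div_le_div_of_nonneg_right _ ht.le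
      exact_mod_cast hs2 i
    rw [← sum_mul, H.psum, one_mul] at this
    exact this
  by_contra hcon
  push Not at hcon
  have : ∑ j, p j * ((rho q - 2 : ℝ) / t)
      < ∑ j, p j * (∑ i, p i * (((∑ v ∈ U i, z j v : ℤ) : ℝ) - 1)) := by
    refine sum_lt_sum (fun j _ => mul_le_mul_of_nonneg_left (hcon j).le (H.ppos j).le)
      ⟨i0, mem_univ _, mul_lt_mul_of_pos_left (hcon i0) (H.ppos i0)⟩
  rw [← sum_mul, H.psum, one_mul] at this
  linarith

/-- **The averaging theorem, linear form.** -/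
theorem exists_good_index_linear (H : Sys F p z q m t) (hr3 : 3 ≤ rho q) (hrho : 4 * (rho q - 2) ≤ t) :
    ∃ i, ∀ U ∈ F, ∑ v ∈ U, z i v ≤ t * ∑ v ∈ U, q v + ∑ v ∈ U, m v - t + 1 := by
  classical
  by_contra hcon
  push Not at hcon
  choose U hUF hU using hcon
  have hbad : ∀ i, t * ∑ v ∈ U i, q v + ∑ v ∈ U i, m v - t + 2 ≤ ∑ v ∈ U i, z i v := fun i => by
    have := hU i; linarith
  have ht := tpos H
  obtain ⟨_, o, ho⟩ := exists_base_index H U hUF hbad
  set N : Finset V := Qs z q o with hN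
  choose σ hσ1 hσ2 hσ3 using fun i => exists_sigma H o i
  have hNcard : (N.card : ℤ) = rho q := card_Q H o
  have hNcardR : (N.card : ℝ) = rho q := by exact_mod_cast hNcard
  have hr3' : (3 : ℝ) ≤ rho q := by exact_mod_cast hr3
  -- the masses
  set c : V → V → ℝ := fun v u => ∑ i, t * p i * (if σ i u = v then 1 else 0) with hc
  have hc0 : ∀ v u, 0 ≤ c v u := fun v u => sum_nonneg fun i _ => by
    have := H.ppos i
    split_ifs <;> positivity
  have hmR : ∀ v, (0 : ℝ) ≤ m v := fun v => by exact_mod_cast H.m0 v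
  -- row sums
  have hrow : ∀ v, ∑ u ∈ N, c v u = m v := by
    intro v
    have h1 : ∀ i, ∑ u ∈ N, (if σ i u = v then (1 : ℝ) else 0) = if v ∈ Qs z q i then 1 else 0 := by
      intro i
      by_cases hv : v ∈ Qs z q i
      · rw [if_pos hv]
        rw [← hσ2 i] at hv
        obtain ⟨u, hu, huv⟩ := mem_image.1 hv
        rw [sum_eq_single u]
        · rw [if_pos huv]
        · intro b hb hbu
          rw [if_neg]
          intro h
          exact hbu (hσ3 i hb hu (h.trans huv.symm))
        · intro h; exact absurd hu h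
      · rw [if_neg hv]
        refine sum_eq_zero fun u hu => ?_
        rw [if_neg]
        intro h
        exact hv (h ▸ (hσ1 i u hu).1)
    have h2 : ∑ u ∈ N, c v u = t * ∑ i, p i * (if v ∈ Qs z q i then 1 else 0) := by
      simp only [hc]
      rw [sum_comm, mul_sum]
      refine sum_congr rfl fun i _ => ?_
      rw [← mul_sum, h1 i]; ring
    rw [h2]
    have h3 := avg_card H {v}
    have h4 : ∀ i, ((Qs z q i ∩ {v}).card : ℝ) = if v ∈ Qs z q i then 1 else 0 := by
      intro i
      split_ifs with h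
      · rw [inter_singleton_of_mem h]; simp
      · rw [inter_singleton_of_notMem h]; simp
    simp only [h4, sum_singleton] at h3
    rw [h3]
    field_simp
  have hcle : ∀ v, ∀ u ∈ N, c v u ≤ m v := fun v u hu => by
    rw [← hrow v]; exact single_le_sum (f := fun u => c v u) (fun u _ => hc0 v u) hu
  -- column sums
  have hcol : ∀ u, ∀ f : V → ℝ, ∑ v, c v u * f v = ∑ i, t * p i * f (σ i u) := by
    intro u f
    simp only [hc, sum_mul]
    rw [sum_comm]
    refine sum_congr rfl fun i _ => ?_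
    rw [sum_eq_single (σ i u)]
    · rw [if_pos rfl]; ring
    · intro b _ hb; rw [if_neg (Ne.symm hb)]; ring
    · intro h; exact absurd (mem_univ _) h
  -- support
  have hsupp : ∀ v, ∀ u ∈ N, v ∉ above (tgt F z o) u → c v u = 0 := by
    intro v u hu hv
    simp only [hc]
    refine sum_eq_zero fun i _ => ?_
    rw [if_neg, mul_zero]
    intro h
    exact hv (h ▸ (hσ1 i u hu).2)
  have hm0c : ∀ v, (m v : ℝ) = 0 → ∀ u ∈ N, c v u = 0 := by
    intro v hv u hu
    have := hcle v u hu
    rw [hv] at this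
    exact le_antisymm this (hc0 v u)
  -- the symmetric graph
  set g : V → V → ℝ := fun b u => ∑ v, c v b * c v u / m v with hg
  have hg0 : ∀ b u, 0 ≤ g b u := fun b u => sum_nonneg fun v _ => by
    have := hc0 v b
    have := hc0 v u
    have := hmR v
    positivity
  have hgs : ∀ b u, g b u = g u b := fun b u => sum_congr rfl fun v _ => by ring
  -- the mass of the tails outside `P`
  set θ : Finset V → V → ℝ := fun P v => (∑ b ∈ N \ P, c v b) / m v with hθ
  have hθ0 : ∀ P v, 0 ≤ θ P v := fun P v => div_nonneg (sum_nonneg fun b _ => hc0 v b) (hmR v)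
  have hsplit : ∀ P ⊆ N, ∀ v, ∑ b ∈ N \ P, c v b + ∑ b ∈ P, c v b = m v := by
    intro P hP v
    rw [sum_sdiff hP, hrow v]
  have hθ1 : ∀ P ⊆ N, ∀ v, θ P v ≤ 1 := by
    intro P hP v
    simp only [hθ]
    rcases (hmR v).eq_or_lt with h | h
    · rw [← h]; simp
    · rw [div_le_one h]
      have h1 := hsplit P hP v
      have h2 : 0 ≤ ∑ b ∈ P, c v b := sum_nonneg fun b _ => hc0 v b
      linarith
  have hθm : ∀ P ⊆ N, ∀ v, (m v : ℝ) * θ P v = ∑ b ∈ N \ P, c v b := by
    intro P hP v
    simp only [hθ]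
    rcases (hmR v).eq_or_lt with h | h
    · rw [← h, zero_mul]
      exact (sum_eq_zero fun b hb => hm0c v h.symm b (mem_sdiff.1 hb).1).symm
    · field_simp
  have hθP : ∀ P ⊆ N, ∀ v, (m v : ℝ) ≠ 0 → ∑ u ∈ P, c v u / m v = 1 - θ P v := by
    intro P hP v hv
    rw [← sum_div]
    simp only [hθ]
    rw [eq_sub_iff_add_eq, ← add_div, add_comm, hsplit P hP v, div_self hv]
  -- surplus as mass
  have hsur : ∀ P ⊆ N, (sur F z m t o P : ℝ) = ∑ v ∈ Zs F z o P, (m v : ℝ) * θ P v := by
    intro P hP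
    have h1 : ∀ v, v ∉ Zs F z o P → ∑ b ∈ P, c v b = 0 := by
      intro v hv
      refine sum_eq_zero fun b hb => hsupp v b (hP hb) fun h => hv ?_
      simp only [Zs, mem_biUnion]
      exact ⟨b, hb, h⟩
    have h2 : ∑ v ∈ Zs F z o P, ∑ b ∈ P, c v b = t * P.card := by
      have : ∑ v ∈ Zs F z o P, ∑ b ∈ P, c v b = ∑ v, ∑ b ∈ P, c v b := by
        rw [← sum_subset (subset_univ (Zs F z o P))]
        intro v _ hv; exact h1 v hv
      rw [this, sum_comm]
      have h3 : ∀ b ∈ P, ∑ v, c v b = t := by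
        intro b _
        have := hcol b (fun _ => 1)
        simp only [mul_one] at this
        rw [this, ← mul_sum, H.psum, mul_one]
      rw [sum_congr rfl h3, sum_const, nsmul_eq_mul]; ring
    have h4 : ∑ v ∈ Zs F z o P, (m v : ℝ) * θ P v
        = ∑ v ∈ Zs F z o P, (m v : ℝ) - ∑ v ∈ Zs F z o P, ∑ b ∈ P, c v b := by
      rw [← sum_sub_distrib]
      refine sum_congr rfl fun v _ => ?_
      rw [hθm P hP v, ← hsplit P hP v]; ring
    rw [h4, h2]
    simp only [sur]
    push_cast
    ring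
  -- cut of the symmetric graph
  have hcutg : ∀ P ⊆ N, cutw g (N ∩ P) (N \ P)
      = ∑ v ∈ Zs F z o P, (m v : ℝ) * θ P v * (1 - θ P v) := by
    intro P hP
    rw [inter_eq_right.2 hP]
    have h1 : cutw g P (N \ P) = ∑ v, (∑ b ∈ P, c v b) * (∑ u ∈ N \ P, c v u) / m v := by
      simp only [cutw, hg]
      rw [sum_congr rfl fun b _ => sum_comm, sum_comm]
      refine sum_congr rfl fun v _ => ?_
      rw [sum_mul_sum, sum_div]
      refine sum_congr rfl fun b _ => ?_
      rw [sum_div]
    rw [h1, ← sum_subset (subset_univ (Zs F z o P))]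
    · refine sum_congr rfl fun v _ => ?_
      rw [mul_assoc, ← mul_assoc]
      by_cases hv : (m v : ℝ) = 0
      · rw [hv]; simp
      · rw [hθm P hP v, ← hθP P hP v hv, ← sum_div]; ring
    · intro v _ hv
      have : ∑ b ∈ P, c v b = 0 := by
        refine sum_eq_zero fun b hb => hsupp v b (hP hb) fun h => hv ?_
        simp only [Zs, mem_biUnion]
        exact ⟨b, hb, h⟩
      rw [this]; simp
  -- relevant sets
  set 𝓡 : Set (Finset V) := {P | Rel F z q m t o P ∧ P.Nonempty} with h𝓡
  set R : ℝ := rho q - 2 with hR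
  have hRpos : 0 < R := by rw [hR]; linarith
  have hcutR : ∀ P ∈ 𝓡, cutw g (N ∩ P) (N \ P) < R := by
    rintro P ⟨hP, hPne⟩
    have hPN := hP.sub
    rw [hcutg P hPN]
    have h1 : (sur F z m t o P : ℝ) ≤ R := by
      have h4 := hP.le
      have h5 : (1 : ℤ) ≤ P.card := by exact_mod_cast card_pos.2 hPne
      have : sur F z m t o P ≤ rho q - 2 := by
        simp only [rho]; linarith
      rw [hR]
      exact_mod_cast this
    have h2 : (1 : ℝ) ≤ sur F z m t o P := by exact_mod_cast hP.pos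
    have h3 := hsur P hPN
    have hex : ∃ v ∈ Zs F z o P, 0 < (m v : ℝ) * θ P v := by
      by_contra hcon
      push Not at hcon
      have := sum_nonpos hcon
      rw [← h3] at this
      linarith
    obtain ⟨v0, hv0, hv0p⟩ := hex
    have hlt : ∑ v ∈ Zs F z o P, (m v : ℝ) * θ P v * (1 - θ P v)
        < ∑ v ∈ Zs F z o P, (m v : ℝ) * θ P v := by
      refine sum_lt_sum (fun v _ => ?_) ⟨v0, hv0, ?_⟩
      · have a1 := hθ0 P v
        have a2 := mul_nonneg (hmR v) a1
        nlinarith
      · have a1 : 0 < θ P v0 := by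
          by_contra hcon
          have a2 := hθ0 P v0
          have a3 : θ P v0 = 0 := le_antisymm (not_lt.1 hcon) a2
          rw [a3] at hv0p; simp at hv0p
        nlinarith
    rw [← h3] at hlt
    linarith
  have hNne : N.Nonempty := by
    rw [← card_pos]
    have : (0 : ℤ) < N.card := by rw [hNcard]; linarith
    exact_mod_cast this
  obtain ⟨φ, hφ0, hφ1, _, hφ3⟩ := exists_split g hg0 hgs 𝓡 R hRpos N.card N rfl hNne hcutR
  have hφsum : ∑ b ∈ N, ∑ u ∈ N, g b u * φ b u < 2 * (rho q - 2) := by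
    have h2 : 2 ≤ N.card := by
      have : (2 : ℤ) ≤ N.card := by rw [hNcard]; linarith
      exact_mod_cast this
    have := hφ3 h2
    rw [hNcardR] at this
    have e : 2 * ((rho q : ℝ) - 1) * (R / (R + 1)) = 2 * (rho q - 2) := by
      rw [hR]
      have : (rho q : ℝ) - 2 + 1 ≠ 0 := by linarith
      field_simp
      ring
    rw [e] at this
    exact this
  -- the test functional
  set K1 : V → V → ℝ := fun b v => ∑ u ∈ N, c v u / m v * φ b u with hK1
  set K2 : V → ℝ := fun v => ∑ b' ∈ N, ∑ u ∈ N, c v b' / m v * (c v u / m v) * φ b' u with hK2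
  have hcm0 : ∀ v u, 0 ≤ c v u / m v := fun v u => div_nonneg (hc0 v u) (hmR v)
  have hK10 : ∀ b v, 0 ≤ K1 b v := fun b v => sum_nonneg fun u _ => mul_nonneg (hcm0 v u) (hφ0 b u)
  have hK20 : ∀ v, 0 ≤ K2 v := fun v => sum_nonneg fun b _ => sum_nonneg fun u _ =>
    mul_nonneg (mul_nonneg (hcm0 v b) (hcm0 v u)) (hφ0 b u)
  set G : ι → ℝ := fun i => ∑ b ∈ N, (K1 b (σ i b) + 1 / 2 * K2 (σ i b)) with hG
  have hG0 : ∀ i, 0 ≤ G i := fun i => sum_nonneg fun b _ => by
    have := hK10 b (σ i b)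
    have := hK20 (σ i b)
    positivity
  -- total
  have hGsum : ∑ i, t * p i * G i = 3 / 2 * ∑ b ∈ N, ∑ u ∈ N, g b u * φ b u := by
    have e1 : ∑ i, t * p i * G i
        = ∑ b ∈ N, ∑ v, c v b * (K1 b v + 1 / 2 * K2 v) := by
      simp only [hG, mul_sum]
      rw [sum_comm]
      refine sum_congr rfl fun b _ => ?_
      exact (hcol b (fun v => K1 b v + 1 / 2 * K2 v)).symm
    have e2 : ∑ b ∈ N, ∑ v, c v b * (K1 b v + 1 / 2 * K2 v)
        = ∑ b ∈ N, ∑ v, c v b * K1 b v + 1 / 2 * ∑ v, (∑ b ∈ N, c v b) * K2 v := by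
      have q1 : ∀ b ∈ N, ∑ v, c v b * (K1 b v + 1 / 2 * K2 v)
          = ∑ v, c v b * K1 b v + ∑ v, 1 / 2 * (c v b * K2 v) := by
        intro b _
        rw [← sum_add_distrib]
        exact sum_congr rfl fun v _ => by ring
      rw [sum_congr rfl q1, sum_add_distrib]
      congr 1
      rw [sum_comm, mul_sum]
      refine sum_congr rfl fun v _ => ?_
      rw [sum_mul, mul_sum]
    have e3 : ∑ b ∈ N, ∑ v, c v b * K1 b v = ∑ b ∈ N, ∑ u ∈ N, g b u * φ b u := by
      refine sum_congr rfl fun b _ => ?_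
      simp only [hK1, mul_sum]
      rw [sum_comm]
      refine sum_congr rfl fun u _ => ?_
      simp only [hg]
      rw [sum_mul]
      refine sum_congr rfl fun v _ => ?_
      ring
    have e4 : ∑ v, (∑ b ∈ N, c v b) * K2 v = ∑ b ∈ N, ∑ u ∈ N, g b u * φ b u := by
      simp only [hrow, hK2, mul_sum]
      rw [sum_comm]
      refine sum_congr rfl fun b hb => ?_
      rw [sum_comm]
      refine sum_congr rfl fun u hu => ?_
      simp only [hg]
      rw [sum_mul]
      refine sum_congr rfl fun v _ => ?_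
      by_cases hv : (m v : ℝ) = 0
      · rw [hm0c v hv b hb]; simp
      · field_simp
    rw [e1, e2, e3, e4]; ring
  -- lower bound at tight violations
  have hGone : ∀ i, ∑ v ∈ U i, z o v = 1 → 1 ≤ G i := by
    intro i hi
    obtain ⟨hRel, hexc⟩ := rel_of_bad H o i (hUF i) hi (hbad i)
    set P : Finset V := Qs z q o ∩ U i with hP
    have hPN : P ⊆ N := hRel.sub
    have hPne : P.Nonempty := by
      rw [nonempty_iff_ne_empty]
      intro h
      rw [h] at hRel
      exact not_rel_empty F z q m t o hRel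
    set K : Finset V := (N \ P).filter fun b => σ i b ∈ Zs F z o P with hK
    have hKc : exc F z q o i P = (K.card : ℤ) := by
      rw [exc, card_inter_Zs H o i (hσ1 i) (hσ2 i) (hσ3 i) hPN]; push_cast; ring
    have hKN : K ⊆ N := (filter_subset _ _).trans sdiff_subset
    have hKinj : Set.InjOn (σ i) K := (hσ3 i).mono (by exact_mod_cast hKN)
    set K' : Finset V := K.image (σ i) with hK'
    have hK'c : K'.card = K.card := card_image_of_injOn hKinj
    have hm1 : ∀ v ∈ Qs z q i, (1 : ℝ) ≤ m v := by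
      intro v hv
      simp only [Qs, mem_filter, mem_univ, true_and] at hv
      rcases H.z01 i v with h | ⟨_, h⟩
      · exact absurd h hv
      · exact_mod_cast h
    set γ : ℝ := cutw g (N ∩ P) (N \ P) with hγ
    have hγ0 : 0 ≤ γ := cutw_nonneg hg0 _ _
    have hker := kernel_ineq (Zs F z o P) K' (by
        intro v hv
        obtain ⟨b, hb, rfl⟩ := mem_image.1 hv
        exact (mem_filter.1 hb).2) (fun v => (m v : ℝ)) (θ P) (fun v _ => hmR v)
      (by
        intro v hv
        obtain ⟨b, hb, rfl⟩ := mem_image.1 hv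
        exact hm1 _ (hσ1 i b (hKN hb)).1)
      (fun v _ => hθ0 P v) (fun v _ => hθ1 P hPN v) (by
        rw [← hsur P hPN, hK'c]
        rw [hKc] at hexc
        have : (sur F z m t o P : ℝ) + 1 ≤ ((K.card : ℤ) : ℝ) := by exact_mod_cast hexc
        simpa using this)
    rw [← hcutg P hPN, ← hγ, hK', sum_image hKinj] at hker
    -- termwise
    have hterm : ∀ b ∈ K, (1 - θ P (σ i b)) * (1 + θ P (σ i b)) * (1 / (γ + 1))
        ≤ K1 b (σ i b) + 1 / 2 * K2 (σ i b) := by
      intro b hb
      have hbNP : b ∈ N \ P := (mem_filter.1 hb).1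
      set v := σ i b with hv
      have hmv : (m v : ℝ) ≠ 0 := by
        have := hm1 v (hσ1 i b (hKN hb)).1
        linarith
      have hsub1 : ∑ u ∈ P, c v u / m v * (1 / (γ + 1)) ≤ K1 b v := by
        simp only [hK1]
        refine le_trans (sum_le_sum fun u hu => ?_)
          (sum_le_sum_of_subset_of_nonneg hPN fun u _ _ => mul_nonneg (hcm0 v u) (hφ0 b u))
        exact mul_le_mul_of_nonneg_left
          (hφ1 P ⟨hRel, hPne⟩ b hbNP u (mem_inter.2 ⟨hPN hu, hu⟩)).1 (hcm0 v u)
      have hdec : ∀ f : V → V → ℝ, (∀ b u, 0 ≤ f b u) →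
          ∑ b' ∈ N \ P, ∑ u ∈ P, f b' u + ∑ b' ∈ P, ∑ u ∈ N \ P, f b' u
            ≤ ∑ b' ∈ N, ∑ u ∈ N, f b' u := by
        intro f hf
        rw [← sum_sdiff hPN (f := fun b' => ∑ u ∈ N, f b' u)]
        apply add_le_add
        · exact sum_le_sum fun b' _ => sum_le_sum_of_subset_of_nonneg hPN fun u _ _ => hf b' u
        · exact sum_le_sum fun b' _ => sum_le_sum_of_subset_of_nonneg sdiff_subset fun u _ _ => hf b' u
      have hθN : ∑ b' ∈ N \ P, c v b' / m v = θ P v := by
        simp only [hθ]; rw [sum_div]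
      have hsub2 : 2 * (θ P v * (1 - θ P v)) * (1 / (γ + 1)) ≤ K2 v := by
        simp only [hK2]
        refine le_trans ?_ (hdec (fun b' u => c v b' / m v * (c v u / m v) * φ b' u)
          (fun b' u => mul_nonneg (mul_nonneg (hcm0 v b') (hcm0 v u)) (hφ0 b' u)))
        have q1 : θ P v * (1 - θ P v) * (1 / (γ + 1))
            ≤ ∑ b' ∈ N \ P, ∑ u ∈ P, c v b' / m v * (c v u / m v) * φ b' u := by
          rw [← hθP P hPN v hmv, ← hθN, sum_mul_sum, sum_mul]
          refine sum_le_sum fun b' hb' => ?_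
          rw [sum_mul]
          refine sum_le_sum fun u hu => ?_
          exact mul_le_mul_of_nonneg_left
            (hφ1 P ⟨hRel, hPne⟩ b' hb' u (mem_inter.2 ⟨hPN hu, hu⟩)).1
            (mul_nonneg (hcm0 v b') (hcm0 v u))
        have q2 : θ P v * (1 - θ P v) * (1 / (γ + 1))
            ≤ ∑ b' ∈ P, ∑ u ∈ N \ P, c v b' / m v * (c v u / m v) * φ b' u := by
          rw [mul_comm (θ P v), ← hθP P hPN v hmv, ← hθN, sum_mul_sum, sum_mul]
          refine sum_le_sum fun b' hb' => ?_
          rw [sum_mul]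
          refine sum_le_sum fun u hu => ?_
          exact mul_le_mul_of_nonneg_left
            (hφ1 P ⟨hRel, hPne⟩ u hu b' (mem_inter.2 ⟨hPN hb', hb'⟩)).2
            (mul_nonneg (hcm0 v b') (hcm0 v u))
        linarith
      have hsub1' : (1 - θ P v) * (1 / (γ + 1)) ≤ K1 b v := by
        rw [← hθP P hPN v hmv, sum_mul]
        exact hsub1
      nlinarith
    calc (1 : ℝ) = (γ + 1) * (1 / (γ + 1)) := by field_simp
      _ ≤ (∑ b ∈ K, (1 - θ P (σ i b)) * (1 + θ P (σ i b))) * (1 / (γ + 1)) :=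
          mul_le_mul_of_nonneg_right hker (by positivity)
      _ = ∑ b ∈ K, (1 - θ P (σ i b)) * (1 + θ P (σ i b)) * (1 / (γ + 1)) := by rw [sum_mul]
      _ ≤ ∑ b ∈ K, (K1 b (σ i b) + 1 / 2 * K2 (σ i b)) := sum_le_sum hterm
      _ ≤ G i := by
          simp only [hG]
          refine sum_le_sum_of_subset_of_nonneg hKN fun b _ _ => ?_
          have := hK10 b (σ i b)
          have := hK20 (σ i b)
          positivity
  -- conclusion
  have hlowi : ∀ i, 1 - (((∑ v ∈ U i, z o v : ℤ) : ℝ) - 1) ≤ G i := by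
    intro i
    have h1 := H.zcut o (U i) (hUF i)
    by_cases h : ∑ v ∈ U i, z o v = 1
    · rw [h]
      have := hGone i h
      push_cast
      linarith
    · have h2 : 2 ≤ ∑ v ∈ U i, z o v := by
        have : 1 ≠ ∑ v ∈ U i, z o v := fun e => h e.symm
        omega
      have h3 : (2 : ℝ) ≤ ((∑ v ∈ U i, z o v : ℤ) : ℝ) := by exact_mod_cast h2
      have := hG0 i
      linarith
  have hlow : 1 - (rho q - 2 : ℝ) / t ≤ ∑ i, p i * G i := by
    have h1 : ∑ i, p i * (1 - (((∑ v ∈ U i, z o v : ℤ) : ℝ) - 1)) ≤ ∑ i, p i * G i :=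
      sum_le_sum fun i _ => mul_le_mul_of_nonneg_left (hlowi i) (H.ppos i).le
    have h2 : ∑ i, p i * (1 - (((∑ v ∈ U i, z o v : ℤ) : ℝ) - 1))
        = 1 - ∑ i, p i * (((∑ v ∈ U i, z o v : ℤ) : ℝ) - 1) := by
      simp only [mul_sub (p _) 1, mul_one, sum_sub_distrib, H.psum]
    linarith
  have hfin : t - (rho q - 2 : ℝ) ≤ ∑ i, t * p i * G i := by
    have := mul_le_mul_of_nonneg_left hlow ht.le
    have e1 : (t : ℝ) * (1 - (rho q - 2 : ℝ) / t) = t - (rho q - 2) := by field_simp
    have e2 : (t : ℝ) * ∑ i, p i * G i = ∑ i, t * p i * G i := by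
      rw [mul_sum]; exact sum_congr rfl fun i _ => by ring
    rw [e1, e2] at this
    exact this
  rw [hGsum] at hfin
  have hrhoR : 4 * ((rho q : ℝ) - 2) ≤ t := by exact_mod_cast hrho
  linarith

/-- Both bounds together. -/
theorem exists_good_index_both (H : Sys F p z q m t)
    (hrho : rho q * (rho q - 2) ≤ t ∨ 4 * (rho q - 2) ≤ t) :
    ∃ i, ∀ U ∈ F, ∑ v ∈ U, z i v ≤ t * ∑ v ∈ U, q v + ∑ v ∈ U, m v - t + 1 := by
  rcases hrho with h | h
  · exact exists_good_index H h
  · by_cases h3 : 3 ≤ rho q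
    · exact exists_good_index_linear H h3 h
    · refine exists_good_index H ?_
      have h2 := H.t2
      have hr0 : 0 ≤ rho q := by
        have hne : Nonempty ι := by
          by_contra h
          rw [not_nonempty_iff] at h
          have := H.psum
          simp at this
        obtain ⟨i⟩ := hne
        have := card_Q H i
        have h0 : (0 : ℤ) ≤ (Qs z q i).card := Int.natCast_nonneg _
        rw [this] at h0
        exact h0
      have h4 : rho q ≤ 2 := by omega
      nlinarith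

end core

end Pool.Agent.helper52.DJ
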