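import Pool.Agent.helper52.DJ.Core3
import Pool.Agent.helper52.DJ.Hull

/-!
# The `(1, τ - 1)`-decomposition
-/

namespace Pool.Agent.helper52.DJ

open Finset

variable {V A : Type*} [Fintype V] [DecidableEq V] [Fintype A] [DecidableEq A]

/-- the weight of the arcs leaving `U` -/
def DG.wt (D : DG V A) (w : A → ℕ) (U : Finset V) : ℕ := ∑ a ∈ D.out U, w a

/-- the net outflow `w(δ⁺(v)) - w(δ⁻(v))` -/
def DG.dem (D : DG V A) (w : A → ℕ) (v : V) : ℤ := D.net (fun a => (w a : ℤ)) v

/-- `ρ(τ, D, w)`: the sum of the residues modulo `τ` of the net outflows, divided by `τ` -/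
def DG.rho (D : DG V A) (w : A → ℕ) (τ : ℕ) : ℤ := (∑ v, D.dem w v % (τ : ℤ)) / (τ : ℤ)

omit [DecidableEq A] in
lemma rho_eq (D : DG V A) (w : A → ℕ) (τ : ℕ) (hτ : τ ≠ 0) :
    D.rho w τ = - ∑ v, D.dem w v / (τ : ℤ) := by
  have h0 : (τ : ℤ) ≠ 0 := by exact_mod_cast hτ
  have h : ∑ v, D.dem w v = 0 := sum_net_univ D _
  have e : ∑ v, D.dem w v % (τ : ℤ) = (τ : ℤ) * (- ∑ v, D.dem w v / (τ : ℤ)) := by
    have : ∑ v, D.dem w v = (τ : ℤ) * ∑ v, D.dem w v / (τ : ℤ) + ∑ v, D.dem w v % (τ : ℤ) := by
      rw [mul_sum, ← sum_add_distrib]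
      refine sum_congr rfl fun v _ => (Int.mul_ediv_add_emod _ _).symm
    rw [h] at this
    linarith
  rw [DG.rho, e, Int.mul_ediv_cancel_left _ h0]

omit [DecidableEq A] in
lemma wt_eq (D : DG V A) (w : A → ℕ) {U : Finset V} (hU : D.IsShore U) :
    (D.wt w U : ℤ) = ∑ v ∈ U, D.dem w v := by
  simp only [DG.dem]
  rw [sum_net_shore D _ hU]
  simp [DG.wt]

/-- **The decomposition**, with equitable `c`. -/
theorem decomposition (D : DG V A) (w : A → ℕ) (τ : ℕ) (hτ : 2 ≤ τ)
    (hcut : ∀ U, D.IsShore U → τ ≤ D.wt w U)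
    (hrho : D.rho w τ * (D.rho w τ - 2) ≤ τ ∨ 4 * (D.rho w τ - 2) ≤ τ) :
    ∃ c c' : A → ℕ, (∀ a, w a = c a + c' a) ∧ (∀ U, D.IsShore U → 1 ≤ D.wt c U) ∧
      (∀ U, D.IsShore U → τ - 1 ≤ D.wt c' U) ∧
      (∀ v, D.dem w v / (τ : ℤ) ≤ D.dem c v ∧
        D.dem c v ≤ D.dem w v / (τ : ℤ) + if D.dem w v % (τ : ℤ) = 0 then 0 else 1) := by
  have hτ0 : (0 : ℤ) < τ := by exact_mod_cast (by omega : 0 < τ)
  have hτ1 : (1 : ℤ) ≤ τ := by omega
  set q : V → ℤ := fun v => D.dem w v / (τ : ℤ) with hq
  set m : V → ℤ := fun v => D.dem w v % (τ : ℤ) with hm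
  have hqm : ∀ v, D.dem w v = τ * q v + m v := fun v => (Int.mul_ediv_add_emod _ _).symm
  have hm0 : ∀ v, 0 ≤ m v := fun v => Int.emod_nonneg _ hτ0.ne'
  have hm1 : ∀ v, m v < τ := fun v => Int.emod_lt_of_pos _ hτ0
  obtain ⟨ι, _, p, x, hp0, hp1, hx, hxs⟩ := exists_average D (fun a => (w a : ℤ))
    (fun a => Int.natCast_nonneg _) τ hτ1 q m hqm hm0 hm1 (fun U hU => by
      have := hcut U hU
      have e := wt_eq D w hU
      simp only [DG.dem] at e
      rw [← e]
      exact_mod_cast this)
  have H : Sys {U | D.IsShore U} p (fun i v => D.net (x i) v) q m τ :=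
    { cross := isCrossing_shore D
      ppos := hp0
      psum := hp1
      t2 := by exact_mod_cast hτ
      m0 := hm0
      z01 := by
        intro i v
        have h1 := (hx i).lo v
        have h2 := (hx i).hi v
        split_ifs at h2 with h
        · left; omega
        · have := hm0 v
          by_cases h3 : D.net (x i) v = q v
          · exact Or.inl h3
          · right; omega
      zsum := fun i => sum_net_univ D _
      zcut := fun i U hU => (hx i).cut U hU
      avg := by
        intro v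
        have e : ∑ i, p i * ((D.net (x i) v : ℤ) : ℝ) = netL D v (∑ i, p i • fun a => (x i a : ℝ)) := by
          rw [map_sum]
          refine sum_congr rfl fun i _ => ?_
          rw [map_smul, netL_apply, net_cast, smul_eq_mul]
        have e2 : (∑ i, p i • fun a => (x i a : ℝ)) = (1 / (τ : ℝ)) • fun a => (w a : ℝ) := by
          funext a
          rw [Finset.sum_apply]
          simp only [Pi.smul_apply, smul_eq_mul]
          rw [hxs a]
          push_cast
          ring
        rw [e, e2, map_smul, netL_apply, smul_eq_mul]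
        have e3 : D.net (fun a => (w a : ℝ)) v = ((D.dem w v : ℤ) : ℝ) := by
          have := net_cast D (fun a => (w a : ℤ)) v
          simpa [DG.dem] using this
        rw [e3, hqm v]
        have : (τ : ℝ) ≠ 0 := by
          have : τ ≠ 0 := by omega
          exact_mod_cast this
        push_cast
        field_simp }
  obtain ⟨i, hi⟩ := exists_good_index_both H (by
    have := rho_eq D w τ (by omega)
    simp only [rho]
    rw [← this]; exact hrho)
  have hx' := hx i
  have hcz : ∀ a, ((x i a).toNat : ℤ) = x i a := fun a => Int.toNat_of_nonneg (hx'.nonneg a)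
  refine ⟨fun a => (x i a).toNat, fun a => w a - (x i a).toNat, ?_, ?_, ?_, ?_⟩
  · intro a
    have h1 := hx'.le a
    change w a = (x i a).toNat + (w a - (x i a).toNat)
    omega
  · intro U hU
    have h1 := hx'.cut U hU
    have e := wt_eq D (fun a => (x i a).toNat) hU
    simp only [DG.dem, hcz] at e
    rw [← e] at h1
    exact_mod_cast h1
  · intro U hU
    have h1 := hi U hU
    have e := wt_eq D (fun a => (x i a).toNat) hU
    simp only [DG.dem, hcz] at e
    rw [← e] at h1
    have e2 := wt_eq D w hU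
    have e3 : ∑ v ∈ U, D.dem w v = τ * ∑ v ∈ U, q v + ∑ v ∈ U, m v := by
      rw [mul_sum, ← sum_add_distrib]
      exact sum_congr rfl fun v _ => hqm v
    have e4 : D.wt w U = D.wt (fun a => (x i a).toNat) U + D.wt (fun a => w a - (x i a).toNat) U := by
      simp only [DG.wt]
      rw [← sum_add_distrib]
      refine sum_congr rfl fun a _ => ?_
      have := hx'.le a
      omega
    have e5 : (D.wt w U : ℤ) = D.wt (fun a => (x i a).toNat) U + D.wt (fun a => w a - (x i a).toNat) U := by
      exact_mod_cast e4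
    have : (τ : ℤ) ≤ D.wt (fun a => w a - (x i a).toNat) U + 1 := by linarith
    have : τ ≤ D.wt (fun a => w a - (x i a).toNat) U + 1 := by exact_mod_cast this
    omega
  · intro v
    simp only [DG.dem, hcz]
    exact ⟨hx'.lo v, hx'.hi v⟩

end Pool.Agent.helper52.DJ
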