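import Pool.Agent.helper52.DJ.Clutter
import Pool.Agent.helper52.DJ.Decomp

/-!
# The clutter of minimal dijoins of a weighted digraph
-/

namespace Pool.Agent.helper52.DJ

open Finset

variable {V A : Type*} [Fintype V] [DecidableEq V] [Fintype A] [DecidableEq A]

/-- a dijoin is an arc set meeting every dicut -/
def DG.IsDijoin (D : DG V A) (J : Finset A) : Prop := ∀ U, D.IsShore U → (D.out U ∩ J).Nonempty

/-- inclusion-minimal dijoins -/
def DG.IsMinDijoin (D : DG V A) (J : Finset A) : Prop :=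
  D.IsDijoin J ∧ ∀ J', D.IsDijoin J' → J' ⊆ J → J' = J

omit [Fintype V] [DecidableEq V] in
lemma mem_copies (w : A → ℕ) (e : A × ℕ) :
    e ∈ (univ : Finset A).biUnion (fun a => (range (w a)).image fun i => (a, i)) ↔ e.2 < w e.1 := by
  simp only [mem_biUnion, mem_univ, true_and, mem_image, mem_range]
  constructor
  · rintro ⟨a, i, hi, rfl⟩; exact hi
  · intro h; exact ⟨e.1, e.2, h, rfl⟩

/-- The clutter `C(D, w)`: its elements are the copies `(a, i)`, `i < w a`, of the arcs, its
members the sets of copies that consist of exactly one copy of each arc of a minimal dijoin. -/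
def DG.clutter (D : DG V A) (w : A → ℕ) : Clutter (A × ℕ) where
  ground := (univ : Finset A).biUnion fun a => (range (w a)).image fun i => (a, i)
  mem := {M | (∀ e ∈ M, e.2 < w e.1) ∧ Set.InjOn Prod.fst (M : Set (A × ℕ)) ∧
    D.IsMinDijoin (M.image Prod.fst)}
  sub := fun M hM e he => (mem_copies w e).2 (hM.1 e he)
  anti := by
    rintro M ⟨_, _, h1⟩ M' ⟨_, hinj, h2⟩ hsub
    have heq : M.image Prod.fst = M'.image Prod.fst := h2.2 _ h1.1 (image_subset_image hsub)
    apply Subset.antisymm hsub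
    intro x hx
    have : x.1 ∈ M.image Prod.fst := heq ▸ mem_image_of_mem _ hx
    obtain ⟨y, hy, hyx⟩ := mem_image.1 this
    have : y = x := hinj (hsub hy) hx hyx
    exact this ▸ hy

lemma mem_ground (D : DG V A) (w : A → ℕ) (e : A × ℕ) : e ∈ (D.clutter w).ground ↔ e.2 < w e.1 :=
  mem_copies w e

lemma exists_min_dijoin (D : DG V A) {R : Finset A} (hR : D.IsDijoin R) :
    ∃ J, D.IsMinDijoin J ∧ J ⊆ R := by
  classical
  obtain ⟨J, hJ, hmin⟩ := exists_min_image (R.powerset.filter fun J => D.IsDijoin J) card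
    ⟨R, by rw [mem_filter, mem_powerset]; exact ⟨Subset.refl _, hR⟩⟩
  rw [mem_filter, mem_powerset] at hJ
  refine ⟨J, ⟨hJ.2, fun J' hJ' hsub => eq_of_subset_of_card_le hsub (hmin J' ?_)⟩, hJ.1⟩
  rw [mem_filter, mem_powerset]
  exact ⟨hsub.trans hJ.1, hJ'⟩

/-- choosing a copy of each arc of a minimal dijoin gives a member -/
lemma copies_mem (D : DG V A) (w : A → ℕ) {J : Finset A} (hJ : D.IsMinDijoin J) (g : A → ℕ)
    (hg : ∀ a ∈ J, g a < w a) : J.image (fun a => (a, g a)) ∈ (D.clutter w).mem := by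
  refine ⟨?_, ?_, ?_⟩
  · intro e he
    obtain ⟨a, ha, rfl⟩ := mem_image.1 he
    exact hg a ha
  · intro e he f hf hef
    obtain ⟨a, ha, rfl⟩ := mem_image.1 (mem_coe.1 he)
    obtain ⟨b, hb, rfl⟩ := mem_image.1 (mem_coe.1 hf)
    change a = b at hef
    rw [hef]
  · have : (J.image fun a => (a, g a)).image Prod.fst = J := by
      rw [image_image]
      ext a
      simp
    rw [this]; exact hJ

/-- a cover contains all copies of the arcs of some dicut -/
lemma exists_dicut_of_cover (D : DG V A) (w : A → ℕ) {B : Finset (A × ℕ)}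
    (hB : (D.clutter w).IsCover B) : ∃ U, D.IsShore U ∧ ∀ a ∈ D.out U, ∀ i < w a, (a, i) ∈ B := by
  classical
  by_contra hcon
  push Not at hcon
  set R : Finset A := univ.filter fun a => ∃ i < w a, (a, i) ∉ B with hR
  have hRd : D.IsDijoin R := by
    intro U hU
    obtain ⟨a, ha, i, hi, hn⟩ := hcon U hU
    exact ⟨a, mem_inter.2 ⟨ha, by rw [hR, mem_filter]; exact ⟨mem_univ _, i, hi, hn⟩⟩⟩
  obtain ⟨J, hJ, hJR⟩ := exists_min_dijoin D hRd
  have hex : ∀ a, ∃ i, a ∈ J → (i < w a ∧ (a, i) ∉ B) := by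
    intro a
    by_cases ha : a ∈ J
    · have := hJR ha
      rw [hR, mem_filter] at this
      obtain ⟨_, i, hi, hn⟩ := this
      exact ⟨i, fun _ => ⟨hi, hn⟩⟩
    · exact ⟨0, fun h => absurd h ha⟩
  choose g hg using hex
  obtain ⟨e, he⟩ := hB.2 _ (copies_mem D w hJ g fun a ha => (hg a ha).1)
  rw [mem_inter, mem_image] at he
  obtain ⟨hBe, a, ha, rfl⟩ := he
  exact (hg a ha).2 hBe

omit [Fintype A] in
lemma sum_copies (w : A → ℕ) (S : Finset A) (u : A × ℕ → ℕ∞) :
    ∑ e ∈ S.biUnion (fun a => (range (w a)).image fun i => (a, i)), u e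
      = ∑ a ∈ S, ∑ i ∈ range (w a), u (a, i) := by
  rw [sum_biUnion]
  · refine sum_congr rfl fun a _ => ?_
    rw [sum_image]
    intro i _ j _ h
    exact (Prod.mk.inj h).2
  · intro a _ b _ hab
    change Disjoint _ _
    rw [disjoint_left]
    intro e he hf
    simp only [mem_image, mem_range] at he hf
    obtain ⟨i, _, rfl⟩ := he
    obtain ⟨j, _, h⟩ := hf
    exact hab (Prod.mk.inj h).1.symm

/-- lower bound for `τ(C(D, w), u)` -/
lemma le_tau_clutter (D : DG V A) (w : A → ℕ) (u : A × ℕ → ℕ∞) (r : ℕ∞)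
    (h : ∀ U, D.IsShore U → r ≤ ∑ a ∈ D.out U, ∑ i ∈ range (w a), u (a, i)) :
    r ≤ (D.clutter w).tau u := by
  refine Clutter.le_tau _ u fun B hB => ?_
  obtain ⟨U, hU, hUB⟩ := exists_dicut_of_cover D w hB
  refine (h U hU).trans ?_
  refine le_trans (le_of_eq (sum_copies w (D.out U) u).symm) (sum_le_sum_of_subset (f := u)
    (s := (D.out U).biUnion fun a => (range (w a)).image fun i => (a, i)) ?_)
  · intro e he
    simp only [mem_biUnion, mem_image, mem_range] at he
    obtain ⟨a, ha, i, hi, rfl⟩ := he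
    exact hUB a ha i hi

/-- upper bound for `τ(C(D, w), 1)` -/
lemma tau_clutter_le (D : DG V A) (w : A → ℕ) {U : Finset V} (hU : D.IsShore U) :
    (D.clutter w).tau (fun _ => 1) ≤ D.wt w U := by
  classical
  set S : Finset (A × ℕ) := (D.out U).biUnion fun a => (range (w a)).image fun i => (a, i) with hS
  have hcov : (D.clutter w).IsCover S := by
    refine ⟨fun e he => ?_, fun M hM => ?_⟩
    · simp only [hS, mem_biUnion, mem_image, mem_range] at he
      obtain ⟨a, _, i, hi, rfl⟩ := he
      rw [mem_ground]; exact hi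
    · obtain ⟨a, ha⟩ := hM.2.2.1 U hU
      rw [mem_inter, mem_image] at ha
      obtain ⟨ha, e, he, rfl⟩ := ha
      refine ⟨e, mem_inter.2 ⟨?_, he⟩⟩
      simp only [hS, mem_biUnion, mem_image, mem_range]
      exact ⟨e.1, ha, e.2, hM.1 e he, rfl⟩
  refine ((D.clutter w).tau_le _ hcov).trans ?_
  rw [sum_const, nsmul_eq_mul, mul_one]
  have : S.card ≤ D.wt w U := by
    rw [hS, DG.wt]
    refine card_biUnion_le.trans (sum_le_sum fun a _ => ?_)
    exact card_image_le.trans (le_of_eq (card_range _))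
  exact_mod_cast this

/-- if all dicuts have positive weight there is a member -/
lemma packs_one (D : DG V A) (w : A → ℕ) (h : ∀ U, D.IsShore U → 1 ≤ D.wt w U) :
    (D.clutter w).Packs (fun _ => 1) 1 := by
  classical
  have hRd : D.IsDijoin (univ.filter fun a => 1 ≤ w a) := by
    intro U hU
    by_contra hcon
    rw [not_nonempty_iff_eq_empty] at hcon
    have : D.wt w U = 0 := by
      rw [DG.wt]
      refine sum_eq_zero fun a ha => ?_
      by_contra hne
      have : a ∈ D.out U ∩ univ.filter fun a => 1 ≤ w a := by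
        rw [mem_inter, mem_filter]
        exact ⟨ha, mem_univ _, by omega⟩
      rw [hcon] at this
      exact absurd this (notMem_empty _)
    have := h U hU
    omega
  obtain ⟨J, hJ, hJR⟩ := exists_min_dijoin D hRd
  refine ⟨fun _ => J.image fun a => (a, 0), fun _ => copies_mem D w hJ (fun _ => 0) fun a ha => ?_,
    fun e _ => ?_⟩
  · have := hJR ha
    rw [mem_filter] at this
    omega
  · have : (univ.filter fun _ : Fin 1 => e ∈ J.image fun a => (a, 0)).card ≤ 1 := by
      refine (card_filter_le _ _).trans ?_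
      simp
    change ((univ.filter fun _ : Fin 1 => e ∈ J.image fun a => (a, 0)).card : ℕ∞) ≤ 1
    exact_mod_cast this

end Pool.Agent.helper52.DJ
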