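import Pool.Agent.helper52.DJ.UP

/-!
# Finite digraphs, dicuts, dijoins
-/

namespace Pool.Agent.helper52.DJ

open Finset

/-- A digraph with vertex set `V` and arc set `A`, given by its tail and head maps
(parallel and opposite arcs are allowed). -/
structure DG (V A : Type*) where
  /-- the tail of an arc -/
  tail : A → V
  /-- the head of an arc -/
  head : A → V

variable {V A : Type*} [Fintype V] [DecidableEq V] [Fintype A] [DecidableEq A]

namespace DG

/-- `U` is the shore of a dicut: nonempty, proper, and no arc enters it -/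
def IsShore (D : DG V A) (U : Finset V) : Prop :=
  U.Nonempty ∧ U ≠ univ ∧ ∀ a, D.head a ∈ U → D.tail a ∈ U

/-- the arcs leaving `U` -/
def out (D : DG V A) (U : Finset V) : Finset A :=
  univ.filter fun a => D.tail a ∈ U ∧ D.head a ∉ U

/-- the net outflow of `x` at `v`: the sum over the arcs leaving `v` minus the sum
over the arcs entering `v` -/
def net {R : Type*} [AddCommGroup R] (D : DG V A) (x : A → R) (v : V) : R :=
  ∑ a ∈ univ.filter (fun a => D.tail a = v), x a - ∑ a ∈ univ.filter (fun a => D.head a = v), x a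

/-- the reversed digraph -/
def rev (D : DG V A) : DG V A := ⟨D.head, D.tail⟩

end DG

section
variable {R : Type*} [AddCommGroup R] (D : DG V A)

omit [Fintype V] [DecidableEq A] in
lemma sum_net (x : A → R) (U : Finset V) :
    ∑ v ∈ U, D.net x v = ∑ a ∈ univ.filter (fun a => D.tail a ∈ U), x a
      - ∑ a ∈ univ.filter (fun a => D.head a ∈ U), x a := by
  classical
  have key : ∀ g : A → V, ∑ v ∈ U, ∑ a ∈ univ.filter (fun a => g a = v), x a
      = ∑ a ∈ univ.filter (fun a => g a ∈ U), x a := by
    intro g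
    rw [← sum_fiberwise_of_maps_to (s := univ.filter fun a => g a ∈ U) (t := U) (g := g)
      (fun a ha => (mem_filter.1 ha).2)]
    refine sum_congr rfl fun v hv => ?_
    congr 1
    ext a
    simp only [mem_filter, mem_univ, true_and]
    constructor
    · rintro rfl; exact ⟨hv, rfl⟩
    · rintro ⟨_, h⟩; exact h
  simp only [DG.net, sum_sub_distrib, key]

omit [DecidableEq A] in
lemma sum_net_shore (x : A → R) {U : Finset V} (hU : D.IsShore U) :
    ∑ v ∈ U, D.net x v = ∑ a ∈ D.out U, x a := by
  classical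
  rw [sum_net]
  have e : univ.filter (fun a => D.tail a ∈ U) = D.out U ∪ univ.filter (fun a => D.head a ∈ U) := by
    ext a
    simp only [DG.out, mem_filter, mem_univ, true_and, mem_union]
    constructor
    · intro h
      by_cases hh : D.head a ∈ U
      · exact Or.inr hh
      · exact Or.inl ⟨h, hh⟩
    · rintro (⟨h, _⟩ | h)
      · exact h
      · exact hU.2.2 a h
  have hd : Disjoint (D.out U) (univ.filter (fun a => D.head a ∈ U)) := by
    rw [disjoint_left]
    intro a ha hb
    simp only [DG.out, mem_filter, mem_univ, true_and] at ha hb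
    exact ha.2 hb
  rw [e, sum_union hd]
  abel

omit [DecidableEq A] in
lemma sum_net_univ (x : A → R) : ∑ v, D.net x v = 0 := by
  rw [sum_net]; simp

omit [Fintype V] [DecidableEq A] in
lemma net_add (x y : A → R) (v : V) : D.net (x + y) v = D.net x v + D.net y v := by
  simp only [DG.net, Pi.add_apply, sum_add_distrib]; abel

omit [Fintype V] [DecidableEq A] in
lemma net_sub (x y : A → R) (v : V) : D.net (x - y) v = D.net x v - D.net y v := by
  simp only [DG.net, Pi.sub_apply, sum_sub_distrib]; abel

omit [Fintype A] [DecidableEq A] in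
lemma IsShore.inter {U W : Finset V} (hU : D.IsShore U) (hW : D.IsShore W) (h : (U ∩ W).Nonempty) :
    D.IsShore (U ∩ W) := by
  refine ⟨h, fun he => hU.2.1 ?_, fun a ha => ?_⟩
  · rw [eq_univ_iff_forall] at he ⊢
    exact fun v => (mem_inter.1 (he v)).1
  · rw [mem_inter] at ha ⊢
    exact ⟨hU.2.2 a ha.1, hW.2.2 a ha.2⟩

omit [Fintype A] [DecidableEq A] in
lemma IsShore.union {U W : Finset V} (hU : D.IsShore U) (hW : D.IsShore W) (h : U ∪ W ≠ univ) :
    D.IsShore (U ∪ W) := by
  refine ⟨hU.1.mono subset_union_left, h, fun a ha => ?_⟩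
  rw [mem_union] at ha ⊢
  rcases ha with ha | ha
  · exact Or.inl (hU.2.2 a ha)
  · exact Or.inr (hW.2.2 a ha)

omit [Fintype A] [DecidableEq A] in
lemma isCrossing_shore : IsCrossing {U | D.IsShore U} where
  nonempty := fun _ hU => hU.1
  ne_univ := fun _ hU => hU.2.1
  inter := fun _ hU _ hW h _ => IsShore.inter D hU hW h
  union := fun _ hU _ hW _ h => IsShore.union D hU hW h

end

/-- members where a modular function attains its minimum over a crossing family form
a crossing family -/
lemma isCrossing_tight {R : Type*} [AddCommGroup R] [LinearOrder R] [IsOrderedAddMonoid R]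
    {F : Set (Finset V)} (hF : IsCrossing F) (z : V → R) (c : R)
    (hz : ∀ U ∈ F, c ≤ ∑ v ∈ U, z v) : IsCrossing {U | U ∈ F ∧ ∑ v ∈ U, z v = c} := by
  have key : ∀ U ∈ F, ∀ W ∈ F, ∑ v ∈ U, z v = c → ∑ v ∈ W, z v = c → (U ∩ W).Nonempty →
      U ∪ W ≠ univ → ∑ v ∈ U ∩ W, z v = c ∧ ∑ v ∈ U ∪ W, z v = c := by
    intro U hU W hW h1 h2 hi hu
    have e := sum_union_inter (s₁ := U) (s₂ := W) (f := z)
    rw [h1, h2] at e
    have a1 := hz _ (hF.inter U hU W hW hi hu)
    have a2 := hz _ (hF.union U hU W hW hi hu)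
    constructor
    · apply le_antisymm _ a1
      by_contra hcon
      exact absurd e (ne_of_gt (add_lt_add_of_le_of_lt a2 (not_le.1 hcon)))
    · apply le_antisymm _ a2
      by_contra hcon
      exact absurd e (ne_of_gt (add_lt_add_of_lt_of_le (not_le.1 hcon) a1))
  exact
    { nonempty := fun U hU => hF.nonempty U hU.1
      ne_univ := fun U hU => hF.ne_univ U hU.1
      inter := fun U hU W hW h1 h2 => ⟨hF.inter U hU.1 W hW.1 h1 h2, (key U hU.1 W hW.1 hU.2 hW.2 h1 h2).1⟩
      union := fun U hU W hW h1 h2 => ⟨hF.union U hU.1 W hW.1 h1 h2, (key U hU.1 W hW.1 hU.2 hW.2 h1 h2).2⟩ }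

end Pool.Agent.helper52.DJ
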