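import Mathlib

/-!
# A polyhedron with enough directions is the hull of its good points
-/

namespace Pool.Agent.helper52.DJ

open Finset

/-- If a point of a bounded polyhedron outside `I` always has a nonzero direction killed by its active
constraints, then every point of the polyhedron lies in the hull of its points in `I`. -/
theorem mem_hull {E : Type*} [AddCommGroup E] [Module ℝ E] {J : Type*} [Fintype J]
    (l : J → E →ₗ[ℝ] ℝ) (c : J → ℝ) (I : Set E)
    (hb : ∀ y : E, y ≠ 0 → ∃ j, l j y < 0)
    (hd : ∀ x, (∀ j, c j ≤ l j x) → x ∉ I → ∃ y : E, y ≠ 0 ∧ ∀ j, l j x = c j → l j y = 0) :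
    ∀ (n : ℕ) (x : E), (∀ j, c j ≤ l j x) → (Nat.card {j // l j x ≠ c j}) = n →
      x ∈ convexHull ℝ {x | (∀ j, c j ≤ l j x) ∧ x ∈ I} := by
  classical
  intro n
  induction n using Nat.strong_induction_on with
  | _ n ih =>
  intro x hx hn
  by_cases hxI : x ∈ I
  · exact subset_convexHull ℝ _ ⟨hx, hxI⟩
  obtain ⟨y, hy0, hy⟩ := hd x hx hxI
  -- one step in a direction `u`
  have step : ∀ u : E, u ≠ 0 → (∀ j, l j x = c j → l j u = 0) →
      ∃ t : ℝ, 0 < t ∧ x + t • u ∈ convexHull ℝ {x | (∀ j, c j ≤ l j x) ∧ x ∈ I} := by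
    intro u hu hact
    set F : Finset J := univ.filter fun j => l j u < 0 with hF
    obtain ⟨j0, hj0⟩ := hb u hu
    have hFne : F.Nonempty := ⟨j0, by rw [hF, mem_filter]; exact ⟨mem_univ _, hj0⟩⟩
    obtain ⟨j1, hj1, hmin⟩ := exists_min_image F (fun j => (l j x - c j) / (- l j u)) hFne
    rw [hF, mem_filter] at hj1
    have hneg : l j1 u < 0 := hj1.2
    have hne1 : l j1 x ≠ c j1 := fun h => by
      rw [hact j1 h] at hneg; exact lt_irrefl _ hneg
    have hpos1 : 0 < l j1 x - c j1 := by
      have := hx j1
      exact sub_pos.2 (lt_of_le_of_ne this (Ne.symm hne1))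
    set t : ℝ := (l j1 x - c j1) / (- l j1 u) with ht
    have htpos : 0 < t := div_pos hpos1 (by linarith)
    refine ⟨t, htpos, ?_⟩
    have hval : ∀ j, l j (x + t • u) = l j x + t * l j u := by
      intro j; simp
    have hfeas : ∀ j, c j ≤ l j (x + t • u) := by
      intro j
      rw [hval]
      by_cases hj : l j u < 0
      · have h1 : t ≤ (l j x - c j) / (- l j u) := hmin j (by rw [hF, mem_filter]; exact ⟨mem_univ _, hj⟩)
        have h2 : t * (- l j u) ≤ l j x - c j := by
          rwa [le_div_iff₀ (by linarith)] at h1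
        linarith
      · have h1 : 0 ≤ t * l j u := mul_nonneg htpos.le (not_lt.1 hj)
        have := hx j
        linarith
    refine ih _ ?_ _ hfeas rfl
    rw [← hn]
    rw [Nat.card_eq_fintype_card, Nat.card_eq_fintype_card]
    rw [Fintype.card_subtype, Fintype.card_subtype]
    refine card_lt_card ⟨?_, ?_⟩
    · intro j hj
      rw [mem_filter] at hj ⊢
      refine ⟨mem_univ _, fun h => hj.2 ?_⟩
      rw [hval, hact j h, h]; ring
    · intro hsub
      have hm : j1 ∈ univ.filter fun j => l j x ≠ c j := by
        rw [mem_filter]; exact ⟨mem_univ _, hne1⟩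
      have := hsub hm
      rw [mem_filter] at this
      apply this.2
      rw [hval, ht]
      have : - l j1 u ≠ 0 := by linarith
      have h3 : l j1 u ≠ 0 := ne_of_lt hneg
      field_simp
      ring
  obtain ⟨t1, ht1, hm1⟩ := step y hy0 hy
  obtain ⟨t2, ht2, hm2⟩ := step (-y) (neg_ne_zero.2 hy0) (fun j h => by rw [map_neg, hy j h, neg_zero])
  have hc := (convex_convexHull ℝ {x | (∀ j, c j ≤ l j x) ∧ x ∈ I}) hm1 hm2
    (a := t2 / (t1 + t2)) (b := t1 / (t1 + t2)) (by positivity) (by positivity)
    (by field_simp; ring)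
  have e : (t2 / (t1 + t2)) • (x + t1 • y) + (t1 / (t1 + t2)) • (x + t2 • (-y)) = x := by
    have h12 : t1 + t2 ≠ 0 := by positivity
    rw [smul_add, smul_add, smul_neg, smul_neg, smul_smul, smul_smul]
    have e1 : t2 / (t1 + t2) * t1 = t1 / (t1 + t2) * t2 := by ring
    rw [e1]
    have e2 : (t2 / (t1 + t2)) • x + (t1 / (t1 + t2) * t2) • y
        + ((t1 / (t1 + t2)) • x + -((t1 / (t1 + t2) * t2) • y))
        = (t2 / (t1 + t2) + t1 / (t1 + t2)) • x := by
      rw [add_smul]; abel
    rw [e2]
    have e3 : t2 / (t1 + t2) + t1 / (t1 + t2) = 1 := by field_simp; ring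
    rw [e3, one_smul]
  rw [e] at hc
  exact hc

/-- Counting form: in a multigraph (arcs `α`, nodes `N`) with non-integral arc values
whose net value at every node is an integer, there is a nonzero circulation. -/
theorem exists_circulation {α N : Type*} [Fintype α] [Nonempty α] [Fintype N] [DecidableEq N]
    (t h : α → N) (x : α → ℝ) (hx : ∀ a, ∀ k : ℤ, x a ≠ k)
    (hint : ∀ n, ∃ k : ℤ, ∑ a ∈ univ.filter (fun a => t a = n), x a
      - ∑ a ∈ univ.filter (fun a => h a = n), x a = k) :
    ∃ y : α → ℝ, y ≠ 0 ∧ ∀ n, ∑ a ∈ univ.filter (fun a => t a = n), y a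
      - ∑ a ∈ univ.filter (fun a => h a = n), y a = 0 := by
  classical
  by_cases hloop : ∃ a, t a = h a
  · obtain ⟨a, ha⟩ := hloop
    refine ⟨Pi.single a 1, ?_, fun n => ?_⟩
    · intro hcon
      have := congrFun hcon a
      simp at this
    · simp only [sum_filter, Pi.single_apply]
      rw [← sum_sub_distrib]
      refine sum_eq_zero fun b _ => ?_
      by_cases hb : b = a
      · subst hb; rw [ha]; simp
      · simp [hb]
  · push Not at hloop
    set T : Finset N := univ.image t ∪ univ.image h with hT
    have hdeg : ∀ n ∈ T, 2 ≤ (univ.filter fun a => t a = n).card + (univ.filter fun a => h a = n).card := by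
      intro n hn
      by_contra hcon
      have hpos : 1 ≤ (univ.filter fun a => t a = n).card + (univ.filter fun a => h a = n).card := by
        rw [hT, mem_union, mem_image, mem_image] at hn
        rcases hn with ⟨a, _, ha⟩ | ⟨a, _, ha⟩
        · have : 0 < (univ.filter fun a => t a = n).card :=
            card_pos.2 ⟨a, by rw [mem_filter]; exact ⟨mem_univ _, ha⟩⟩
          omega
        · have : 0 < (univ.filter fun a => h a = n).card :=
            card_pos.2 ⟨a, by rw [mem_filter]; exact ⟨mem_univ _, ha⟩⟩
          omega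
      obtain ⟨k, hk⟩ := hint n
      have h2 : ((univ.filter fun a => t a = n).card = 1 ∧ (univ.filter fun a => h a = n).card = 0) ∨
          ((univ.filter fun a => t a = n).card = 0 ∧ (univ.filter fun a => h a = n).card = 1) := by
        omega
      rcases h2 with ⟨h1, h0⟩ | ⟨h0, h1⟩
      · rw [card_eq_zero] at h0
        obtain ⟨a, ha⟩ := card_eq_one.1 h1
        rw [h0, ha, sum_singleton, sum_empty, sub_zero] at hk
        exact hx a k hk
      · rw [card_eq_zero] at h0
        obtain ⟨a, ha⟩ := card_eq_one.1 h1
        rw [h0, ha, sum_singleton, sum_empty, zero_sub] at hk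
        exact hx a (-k) (by push_cast; linarith)
    have hsumt : ∀ (g : α → N), (∀ a, g a ∈ T) →
        ∑ n ∈ T, (univ.filter fun a => g a = n).card = Fintype.card α := by
      intro g hg
      rw [← card_univ]
      exact (card_eq_sum_card_fiberwise fun a _ => hg a).symm
    have htT : ∀ a, t a ∈ T := fun a => by
      rw [hT]; exact mem_union_left _ (mem_image_of_mem _ (mem_univ _))
    have hhT : ∀ a, h a ∈ T := fun a => by
      rw [hT]; exact mem_union_right _ (mem_image_of_mem _ (mem_univ _))
    have hTle : T.card ≤ Fintype.card α := by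
      have h1 : 2 * T.card ≤ ∑ n ∈ T, ((univ.filter fun a => t a = n).card
          + (univ.filter fun a => h a = n).card) := by
        rw [mul_comm, ← smul_eq_mul, ← sum_const]
        exact sum_le_sum hdeg
      rw [sum_add_distrib, hsumt t htT, hsumt h hhT] at h1
      omega
    obtain ⟨a0⟩ := (inferInstance : Nonempty α)
    set t0 := t a0 with ht0
    have ht0T : t0 ∈ T := htT a0
    -- the boundary map
    let L : (α → ℝ) →ₗ[ℝ] ({n // n ∈ T.erase t0} → ℝ) :=
      { toFun := fun y n => ∑ a ∈ univ.filter (fun a => t a = n), y a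
          - ∑ a ∈ univ.filter (fun a => h a = n), y a
        map_add' := by
          intro y z
          funext n
          simp only [Pi.add_apply, sum_add_distrib]
          ring
        map_smul' := by
          intro r y
          funext n
          simp only [Pi.smul_apply, smul_eq_mul, RingHom.id_apply, ← mul_sum]
          ring }
    have hker : LinearMap.ker L ≠ ⊥ := by
      apply LinearMap.ker_ne_bot_of_finrank_lt
      rw [Module.finrank_fintype_fun_eq_card, Module.finrank_fintype_fun_eq_card,
        Fintype.card_coe, card_erase_of_mem ht0T]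
      have : 0 < T.card := card_pos.2 ⟨t0, ht0T⟩
      omega
    obtain ⟨y, hyk, hy0⟩ := Submodule.exists_mem_ne_zero_of_ne_bot hker
    refine ⟨y, hy0, ?_⟩
    have hyk' : L y = 0 := LinearMap.mem_ker.1 hyk
    have hz : ∀ n, n ∉ T → ∑ a ∈ univ.filter (fun a => t a = n), y a
        - ∑ a ∈ univ.filter (fun a => h a = n), y a = 0 := by
      intro n hn
      have e1 : (univ.filter fun a => t a = n) = ∅ := by
        rw [filter_eq_empty_iff]
        intro a _ ha
        exact hn (ha ▸ htT a)
      have e2 : (univ.filter fun a => h a = n) = ∅ := by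
        rw [filter_eq_empty_iff]
        intro a _ ha
        exact hn (ha ▸ hhT a)
      rw [e1, e2]; simp
    have hz2 : ∀ n ∈ T.erase t0, ∑ a ∈ univ.filter (fun a => t a = n), y a
        - ∑ a ∈ univ.filter (fun a => h a = n), y a = 0 := by
      intro n hn
      have := congrFun hyk' ⟨n, hn⟩
      exact this
    have htot : ∑ n ∈ T, (∑ a ∈ univ.filter (fun a => t a = n), y a
        - ∑ a ∈ univ.filter (fun a => h a = n), y a) = 0 := by
      rw [sum_sub_distrib, sum_fiberwise_of_maps_to (fun a _ => htT a),
        sum_fiberwise_of_maps_to (fun a _ => hhT a), sub_self]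
    intro n
    by_cases hn : n ∈ T
    · by_cases hn0 : n = t0
      · subst hn0
        rw [← add_sum_erase _ _ ht0T, sum_eq_zero hz2, add_zero] at htot
        exact htot
      · exact hz2 n (mem_erase.2 ⟨hn0, hn⟩)
    · exact hz n hn

end Pool.Agent.helper52.DJ
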