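import Pool.Agent.helper52.DJ.Defs
import Pool.Agent.helper52.DJ.Poly

/-!
# Directions at non-integral points
-/

namespace Pool.Agent.helper52.DJ

open Finset

variable {V A : Type*} [Fintype V] [DecidableEq V] [Fintype A] [DecidableEq A]

/-- being an integer -/
def IsInt (r : ℝ) : Prop := ∃ k : ℤ, r = k

noncomputable instance (r : ℝ) : Decidable (IsInt r) := Classical.dec _

lemma isInt_add {r s : ℝ} (hr : IsInt r) (hs : IsInt s) : IsInt (r + s) := by
  obtain ⟨a, ha⟩ := hr
  obtain ⟨b, hb⟩ := hs
  exact ⟨a + b, by rw [ha, hb]; push_cast; ring⟩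

lemma isInt_sub {r s : ℝ} (hr : IsInt r) (hs : IsInt s) : IsInt (r - s) := by
  obtain ⟨a, ha⟩ := hr
  obtain ⟨b, hb⟩ := hs
  exact ⟨a - b, by rw [ha, hb]; push_cast; ring⟩

lemma isInt_sum {ι : Type*} (s : Finset ι) (f : ι → ℝ) (h : ∀ i ∈ s, IsInt (f i)) :
    IsInt (∑ i ∈ s, f i) := by
  classical
  induction s using Finset.induction_on with
  | empty => exact ⟨0, by simp⟩
  | insert a s ha ih =>
    rw [sum_insert ha]
    exact isInt_add (h a (mem_insert_self _ _)) (ih fun i hi => h i (mem_insert_of_mem hi))

section direction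
variable (D : DG V A) (x : A → ℝ)

/-- the tight dicut shores at `x` -/
def tight : Set (Finset V) := {U | U ∈ {U | D.IsShore U} ∧ ∑ v ∈ U, D.net x v = 1}

lemma tight_crossing (hx : ∀ U, D.IsShore U → 1 ≤ ∑ v ∈ U, D.net x v) : IsCrossing (tight D x) :=
  isCrossing_tight (isCrossing_shore D) (D.net x) 1 hx

open Classical in
/-- the class of a vertex -/
noncomputable def cls (T : Set (Finset V)) (u : V) : Finset V :=
  univ.filter fun v => ∀ U ∈ T, (u ∈ U ↔ v ∈ U)

open Classical in
/-- the vertices above a vertex -/
noncomputable def above (T : Set (Finset V)) (u : V) : Finset V :=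
  univ.filter fun v => ∀ U ∈ T, u ∈ U → v ∈ U

lemma upClosed_above (T : Set (Finset V)) (u : V) : UpClosed T (above T u) := by
  intro z hz v hv
  simp only [above, mem_filter, mem_univ, true_and] at hz ⊢
  exact fun U hU hu => hv U hU (hz U hU hu)

lemma cls_subset_above (T : Set (Finset V)) (u : V) : cls T u ⊆ above T u := by
  intro v hv
  simp only [cls, above, mem_filter, mem_univ, true_and] at hv ⊢
  exact fun U hU hu => (hv U hU).1 hu

lemma upClosed_above_sdiff (T : Set (Finset V)) (u : V) : UpClosed T (above T u \ cls T u) := by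
  intro z hz v hv
  rw [mem_sdiff] at hz ⊢
  refine ⟨upClosed_above T u z hz.1 v hv, fun hvc => hz.2 ?_⟩
  have h1 := hz.1
  simp only [cls, above, mem_filter, mem_univ, true_and] at hvc h1 ⊢
  intro U hU
  exact ⟨h1 U hU, fun h => (hvc U hU).2 (hv U hU h)⟩

lemma isInt_cls (hx : ∀ U, D.IsShore U → 1 ≤ ∑ v ∈ U, D.net x v) (u : V) :
    IsInt (∑ v ∈ cls (tight D x) u, D.net x v) := by
  have hT := tight_crossing D x hx
  have hS : ∀ U ∈ tight D x, ∃ k : ℤ, ∑ v ∈ U, D.net x v = k := fun U hU => ⟨1, by
    rw [hU.2]; simp⟩
  have h1 := sum_int_of_upClosed hT (D.net x) (sum_net_univ D x) hS _ (upClosed_above _ u)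
  have h2 := sum_int_of_upClosed hT (D.net x) (sum_net_univ D x) hS _ (upClosed_above_sdiff _ u)
  have e := sum_sdiff (f := D.net x) (cls_subset_above (tight D x) u)
  have : ∑ v ∈ cls (tight D x) u, D.net x v = ∑ v ∈ above (tight D x) u, D.net x v
      - ∑ v ∈ above (tight D x) u \ cls (tight D x) u, D.net x v := by
    rw [← e]; ring
  rw [this]
  exact isInt_sub h1 h2

/-- the node of a vertex -/
noncomputable def node (v : V) : Finset V :=
  if IsInt (D.net x v) then {v} else (cls (tight D x) v).filter fun u => ¬ IsInt (D.net x u)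

lemma self_mem_node (v : V) : v ∈ node D x v := by
  unfold node
  split_ifs with h
  · exact mem_singleton_self v
  · rw [mem_filter]
    exact ⟨by simp [cls], h⟩

lemma node_eq_of_isInt {u v : V} (hv : IsInt (D.net x v)) (h : node D x u = node D x v) : u = v := by
  have := self_mem_node D x u
  rw [h, node, if_pos hv] at this
  exact mem_singleton.1 this

lemma mem_cls_of_node_eq {u v : V} (h : node D x u = node D x v) : u ∈ cls (tight D x) v := by
  have hu := self_mem_node D x u
  rw [h, node] at hu
  split_ifs at hu with hv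
  · rw [mem_singleton] at hu; subst hu; simp [cls]
  · exact (mem_filter.1 hu).1

lemma node_eq_iff {u v : V} (hv : ¬ IsInt (D.net x v)) :
    node D x u = node D x v ↔ u ∈ (cls (tight D x) v).filter fun u => ¬ IsInt (D.net x u) := by
  constructor
  · intro h
    have := self_mem_node D x u
    rw [h, node, if_neg hv] at this
    exact this
  · intro h
    rw [mem_filter] at h
    have e : cls (tight D x) u = cls (tight D x) v := by
      ext w
      have h1 := h.1
      simp only [cls, mem_filter, mem_univ, true_and] at h1 ⊢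
      constructor
      · intro hw U hU; rw [h1 U hU]; exact hw U hU
      · intro hw U hU; rw [← h1 U hU]; exact hw U hU
    rw [node, node, if_neg h.2, if_neg hv, e]

lemma isInt_node (hx : ∀ U, D.IsShore U → 1 ≤ ∑ v ∈ U, D.net x v) (n : Finset V) :
    IsInt (∑ v ∈ univ.filter (fun v => node D x v = n), D.net x v) := by
  by_cases hn : ∃ v0, node D x v0 = n
  · obtain ⟨v0, rfl⟩ := hn
    by_cases hv : IsInt (D.net x v0)
    · have e : univ.filter (fun v => node D x v = node D x v0) = {v0} := by
        ext v
        simp only [mem_filter, mem_univ, true_and, mem_singleton]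
        constructor
        · exact node_eq_of_isInt D x hv
        · rintro rfl; rfl
      rw [e, sum_singleton]; exact hv
    · have e : univ.filter (fun v => node D x v = node D x v0)
          = (cls (tight D x) v0).filter fun u => ¬ IsInt (D.net x u) := by
        ext v
        rw [← node_eq_iff D x hv, mem_filter]
        simp
      rw [e]
      have h2 := sum_filter_add_sum_filter_not (cls (tight D x) v0) (fun u => IsInt (D.net x u))
        (D.net x)
      have : ∑ v ∈ (cls (tight D x) v0).filter (fun u => ¬ IsInt (D.net x u)), D.net x v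
          = ∑ v ∈ cls (tight D x) v0, D.net x v
            - ∑ v ∈ (cls (tight D x) v0).filter (fun u => IsInt (D.net x u)), D.net x v := by
        rw [← h2]; ring
      rw [this]
      exact isInt_sub (isInt_cls D x hx v0) (isInt_sum _ _ fun v hv => (mem_filter.1 hv).2)
  · have e : univ.filter (fun v => node D x v = n) = ∅ := by
      rw [filter_eq_empty_iff]
      intro v _ h
      exact hn ⟨v, h⟩
    rw [e]; exact ⟨0, by simp⟩

omit [Fintype V] [DecidableEq V] [DecidableEq A] in
/-- the net value of a vertex class given by a map -/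
lemma sum_net_fiber {R N : Type*} [AddCommGroup R] [Fintype V] [DecidableEq V] [DecidableEq N]
    (D : DG V A) (y : A → R) (g : V → N) (n : N) :
    ∑ v ∈ univ.filter (fun v => g v = n), D.net y v
      = ∑ a ∈ univ.filter (fun a => g (D.tail a) = n), y a
        - ∑ a ∈ univ.filter (fun a => g (D.head a) = n), y a := by
  rw [sum_net]
  simp

theorem exists_direction (hx : ∀ U, D.IsShore U → 1 ≤ ∑ v ∈ U, D.net x v)
    (hni : ∃ a, ¬ IsInt (x a)) :
    ∃ y : A → ℝ, y ≠ 0 ∧ (∀ a, IsInt (x a) → y a = 0) ∧
      (∀ v, IsInt (D.net x v) → D.net y v = 0) ∧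
      (∀ U, D.IsShore U → ∑ v ∈ U, D.net x v = 1 → ∑ v ∈ U, D.net y v = 0) := by
  classical
  obtain ⟨a0, ha0⟩ := hni
  have : Nonempty {a // ¬ IsInt (x a)} := ⟨⟨a0, ha0⟩⟩
  have hsub : ∀ (z : A → ℝ) (P : A → Prop) [DecidablePred P],
      ∑ a ∈ univ.filter P, z a = ∑ a ∈ (univ.filter P).filter (fun a => IsInt (x a)), z a
        + ∑ a : {a // ¬ IsInt (x a)}, if P a then z a else 0 := by
    intro z P _
    rw [← sum_filter_add_sum_filter_not (univ.filter P) (fun a => IsInt (x a)) z]
    congr 1
    rw [filter_filter]
    have : univ.filter (fun a => P a ∧ ¬ IsInt (x a)) = (univ.filter fun a => ¬ IsInt (x a)).filter P := by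
      rw [filter_filter]; congr 1; ext a; tauto
    rw [this, sum_filter]
    exact (sum_subtype (p := fun a => ¬ IsInt (x a)) (univ.filter fun a => ¬ IsInt (x a))
      (fun a => by simp) (fun a => if P a then z a else 0))
  obtain ⟨y, hy0, hy⟩ := exists_circulation (α := {a // ¬ IsInt (x a)}) (N := Finset V)
    (fun a => node D x (D.tail a)) (fun a => node D x (D.head a)) (fun a => x a)
    (fun a k hk => a.2 ⟨k, hk⟩) (by
      intro n
      have h1 := isInt_node D x hx n
      rw [sum_net_fiber D x (node D x) n, hsub x (fun a => node D x (D.tail a) = n),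
        hsub x (fun a => node D x (D.head a) = n)] at h1
      have e : ∑ a ∈ univ.filter (fun a : {a // ¬ IsInt (x a)} => node D x (D.tail a) = n), x a
          - ∑ a ∈ univ.filter (fun a : {a // ¬ IsInt (x a)} => node D x (D.head a) = n), x a
          = (∑ a ∈ (univ.filter fun a => node D x (D.tail a) = n).filter (fun a => IsInt (x a)), x a
            + ∑ a : {a // ¬ IsInt (x a)}, (if node D x (D.tail a) = n then x a else 0)
            - (∑ a ∈ (univ.filter fun a => node D x (D.head a) = n).filter (fun a => IsInt (x a)), x a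
            + ∑ a : {a // ¬ IsInt (x a)}, (if node D x (D.head a) = n then x a else 0)))
            - (∑ a ∈ (univ.filter fun a => node D x (D.tail a) = n).filter (fun a => IsInt (x a)), x a
            - ∑ a ∈ (univ.filter fun a => node D x (D.head a) = n).filter (fun a => IsInt (x a)), x a) := by
        rw [sum_filter (p := fun a : {a // ¬ IsInt (x a)} => node D x (D.tail a) = n),
          sum_filter (p := fun a : {a // ¬ IsInt (x a)} => node D x (D.head a) = n)]
        ring
      rw [e]
      exact isInt_sub h1 (isInt_sub (isInt_sum _ _ fun a ha => (mem_filter.1 ha).2)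
        (isInt_sum _ _ fun a ha => (mem_filter.1 ha).2)))
  set Y : A → ℝ := fun a => if h : ¬ IsInt (x a) then y ⟨a, h⟩ else 0 with hY
  have hYz : ∀ a, IsInt (x a) → Y a = 0 := fun a ha => by
    rw [hY]; simp only [dif_neg (not_not.2 ha)]
  have hYs : ∀ a : {a // ¬ IsInt (x a)}, Y a = y a := fun a => by
    rw [hY]; simp only [dif_pos a.2]
  have hnode : ∀ n, ∑ v ∈ univ.filter (fun v => node D x v = n), D.net Y v = 0 := by
    intro n
    rw [sum_net_fiber D Y (node D x) n, hsub Y (fun a => node D x (D.tail a) = n),
        hsub Y (fun a => node D x (D.head a) = n)]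
    have z1 : ∀ (P : A → Prop) [DecidablePred P], ∑ a ∈ (univ.filter P).filter (fun a => IsInt (x a)), Y a = 0 :=
      fun P _ => sum_eq_zero fun a ha => hYz a (mem_filter.1 ha).2
    rw [z1, z1, zero_add, zero_add]
    have := hy n
    rw [sum_filter, sum_filter] at this
    simp only [hYs]
    exact this
  refine ⟨Y, ?_, hYz, ?_, ?_⟩
  · intro hcon
    apply hy0
    funext a
    rw [← hYs a, hcon]; rfl
  · intro v hv
    have := hnode (node D x v)
    have e : univ.filter (fun u => node D x u = node D x v) = {v} := by
      ext u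
      simp only [mem_filter, mem_univ, true_and, mem_singleton]
      constructor
      · exact node_eq_of_isInt D x hv
      · rintro rfl; rfl
    rwa [e, sum_singleton] at this
  · intro U hU hUt
    have hUm : U ∈ tight D x := ⟨hU, hUt⟩
    rw [← sum_fiberwise_of_maps_to (s := U) (t := U.image (node D x)) (g := node D x)
      (fun v hv => mem_image_of_mem _ hv)]
    refine sum_eq_zero fun n hn => ?_
    obtain ⟨v, hv, rfl⟩ := mem_image.1 hn
    rw [← hnode (node D x v)]
    congr 1
    ext u
    simp only [mem_filter, mem_univ, true_and]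
    constructor
    · exact fun h => h.2
    · intro h
      refine ⟨?_, h⟩
      have := mem_cls_of_node_eq D x h
      simp only [cls, mem_filter, mem_univ, true_and] at this
      exact (this U hUm).1 hv

end direction

end Pool.Agent.helper52.DJ
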