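import Pool.Agent.helper52.DJ.DClutter

/-!
# Minimally non-packing clutters of minimal dijoins
-/

namespace Pool.Agent.helper52.DJ

open Finset

variable {V A : Type*} [Fintype V] [DecidableEq V] [Fintype A] [DecidableEq A]

lemma sum_ind (n k : ℕ) (h : k ≤ n) :
    ∑ i ∈ range n, (if i < k then (1 : ℕ∞) else 0) = k := by
  rw [← sum_filter, sum_const, nsmul_eq_mul, mul_one]
  have : (range n).filter (fun i => i < k) = range k := by
    ext i
    simp only [mem_filter, mem_range]
    omega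
  rw [this, card_range]

lemma sum_ind' (n k l : ℕ) (h : n = k + l) :
    ∑ i ∈ range n, (if i < k then (0 : ℕ∞) else 1) = l := by
  have e : ∀ i, (if i < k then (0 : ℕ∞) else 1) = if ¬ i < k then 1 else 0 := by
    intro i; split_ifs <;> simp_all
  simp only [e]
  rw [← sum_filter, sum_const, nsmul_eq_mul, mul_one]
  have : ((range n).filter fun i => ¬ i < k).card = l := by
    have h1 := card_filter_add_card_filter_not (s := range n) (fun i => i < k)
    have : (range n).filter (fun i => i < k) = range k := by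
      ext i
      simp only [mem_filter, mem_range]
      omega
    rw [this, card_range, card_range] at h1
    omega
  rw [this]

/-- A minimally non-packing clutter `C(D, w)` has no decomposition of `w`. -/
theorem no_decomposition (D : DG V A) (w : A → ℕ) (hC : (D.clutter w).MinNonPacking) (τ : ℕ)
    (hτ : 2 ≤ τ) {U0 : Finset V} (hU0 : D.IsShore U0) (hU0w : D.wt w U0 = τ) (c c' : A → ℕ)
    (hcc : ∀ a, w a = c a + c' a) (hc : ∀ U, D.IsShore U → 1 ≤ D.wt c U)
    (hc' : ∀ U, D.IsShore U → τ - 1 ≤ D.wt c' U) : False := by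
  classical
  set u : A × ℕ → ℕ∞ := fun e => if e.2 < c e.1 then 1 else 0 with hu
  set u' : A × ℕ → ℕ∞ := fun e => if e.2 < c e.1 then 0 else 1 with hu'
  have hpos : ∀ x : A → ℕ, 1 ≤ D.wt x U0 → ∃ a, 1 ≤ x a := by
    intro x hx
    by_contra hcon
    push Not at hcon
    have : D.wt x U0 = 0 := sum_eq_zero fun a _ => by have := hcon a; omega
    omega
  obtain ⟨a, ha⟩ := hpos c (hc U0 hU0)
  obtain ⟨b, hb⟩ := hpos c' (by have := hc' U0 hU0; omega)
  have h1 : (D.clutter w).tau u = (D.clutter w).nu u := by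
    refine hC.eq_of_ne_one u (fun e => ?_) (e := (b, c b)) ((mem_ground D w _).2 ?_) ?_
    · simp only [hu]; split_ifs
      · exact Or.inr (Or.inl rfl)
      · exact Or.inl rfl
    · have := hcc b
      change c b < w b
      omega
    · simp [hu]
  have h2 : (D.clutter w).tau u' = (D.clutter w).nu u' := by
    refine hC.eq_of_ne_one u' (fun e => ?_) (e := (a, 0)) ((mem_ground D w _).2 ?_) ?_
    · simp only [hu']; split_ifs
      · exact Or.inl rfl
      · exact Or.inr (Or.inl rfl)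
    · have := hcc a
      change 0 < w a
      omega
    · have : 0 < c a := by omega
      simp [hu', this]
  have t1 : ((1 : ℕ) : ℕ∞) ≤ (D.clutter w).tau u := by
    refine le_tau_clutter D w u _ fun U hU => ?_
    have e : ∑ a ∈ D.out U, ∑ i ∈ range (w a), u (a, i) = ((D.wt c U : ℕ) : ℕ∞) := by
      rw [DG.wt, Nat.cast_sum]
      refine sum_congr rfl fun a _ => ?_
      simp only [hu]
      exact sum_ind (w a) (c a) (by have := hcc a; omega)
    rw [e]
    exact_mod_cast hc U hU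
  have t2 : ((τ - 1 : ℕ) : ℕ∞) ≤ (D.clutter w).tau u' := by
    refine le_tau_clutter D w u' _ fun U hU => ?_
    have e : ∑ a ∈ D.out U, ∑ i ∈ range (w a), u' (a, i) = ((D.wt c' U : ℕ) : ℕ∞) := by
      rw [DG.wt, Nat.cast_sum]
      refine sum_congr rfl fun a _ => ?_
      simp only [hu']
      exact sum_ind' (w a) (c a) (c' a) (hcc a)
    rw [e]
    exact_mod_cast hc' U hU
  rw [h1] at t1
  rw [h2] at t2
  have p1 := Clutter.packs_of_le_nu t1
  have p2 := Clutter.packs_of_le_nu t2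
  have p : (D.clutter w).Packs (fun _ => 1) (1 + (τ - 1)) := p1.add p2 (fun e _ => by
    simp only [hu, hu']
    split_ifs <;> simp)
  have hn := (D.clutter w).le_nu _ p
  have e : 1 + (τ - 1) = τ := by omega
  rw [e] at hn
  have ht := tau_clutter_le D w hU0
  rw [hU0w] at ht
  exact hC.tau_ne_nu (le_antisymm (ht.trans hn) ((D.clutter w).nu_le_tau _))

/-- A minimally non-packing clutter `C(D, w)` has a dicut and all its dicuts have weight
at least `2`. -/
theorem two_le_of_minNonPacking (D : DG V A) (w : A → ℕ) (hC : (D.clutter w).MinNonPacking) :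
    (∃ U, D.IsShore U) ∧ ∀ U, D.IsShore U → 2 ≤ D.wt w U := by
  classical
  have hne := hC.tau_ne_nu
  constructor
  · by_contra hcon
    apply hne
    have hcon' : ∀ U, ¬ D.IsShore U := fun U hU => hcon ⟨U, hU⟩
    have hmin : D.IsMinDijoin ∅ := ⟨fun U hU => absurd hU (hcon' U), fun J' _ h => subset_empty.1 h⟩
    have hmem := copies_mem D w hmin (fun _ => 0) (fun a ha => absurd ha (notMem_empty a))
    rw [image_empty] at hmem
    have htop : (D.clutter w).nu (fun _ => 1) = ⊤ := by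
      rw [ENat.eq_top_iff_forall_ge]
      intro k
      refine (D.clutter w).le_nu _ ⟨fun _ => ∅, fun _ => hmem, fun e _ => by simp⟩
    apply le_antisymm _ ((D.clutter w).nu_le_tau _)
    rw [htop]; exact le_top
  · intro U hU
    by_contra hlt
    apply hne
    apply le_antisymm _ ((D.clutter w).nu_le_tau _)
    by_cases h0 : ∃ U, D.IsShore U ∧ D.wt w U = 0
    · obtain ⟨W, hW, hW0⟩ := h0
      have := tau_clutter_le D w hW
      rw [hW0] at this
      exact this.trans (by simp)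
    · have h1 : ∀ U, D.IsShore U → 1 ≤ D.wt w U := by
        intro W hW
        by_contra hcon
        exact h0 ⟨W, hW, by omega⟩
      have h2 := (D.clutter w).le_nu _ (packs_one D w h1)
      have h3 := tau_clutter_le D w hU
      refine h3.trans (le_trans ?_ h2)
      have : D.wt w U ≤ 1 := by omega
      exact_mod_cast this

/-! ### Reversal -/

omit [Fintype A] [DecidableEq A] in
lemma isShore_rev (D : DG V A) (U : Finset V) : D.rev.IsShore (univ \ U) ↔ D.IsShore U := by
  simp only [DG.IsShore, DG.rev, mem_sdiff, mem_univ, true_and]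
  constructor
  · rintro ⟨h1, h2, h3⟩
    refine ⟨?_, ?_, fun a ha => ?_⟩
    · rw [nonempty_iff_ne_empty]
      rintro rfl
      exact h2 (by simp)
    · rintro rfl
      simp at h1
    · by_contra hcon
      exact h3 a hcon ha
  · rintro ⟨h1, h2, h3⟩
    refine ⟨?_, ?_, fun a ha hcon => ha (h3 a hcon)⟩
    · rw [nonempty_iff_ne_empty]
      intro h
      rw [sdiff_eq_empty_iff_subset] at h
      exact h2 (eq_univ_of_forall fun v => h (mem_univ v))
    · intro h
      obtain ⟨v, hv⟩ := h1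
      have : v ∈ univ \ U := by rw [h]; exact mem_univ v
      exact (mem_sdiff.1 this).2 hv

omit [DecidableEq A] in
lemma wt_rev (D : DG V A) (x : A → ℕ) (U : Finset V) : D.rev.wt x (univ \ U) = D.wt x U := by
  simp only [DG.wt]
  congr 1
  ext a
  simp only [DG.out, DG.rev, mem_filter, mem_univ, true_and, mem_sdiff]
  tauto

omit [Fintype V] [DecidableEq A] in
lemma dem_rev (D : DG V A) (w : A → ℕ) (v : V) : D.rev.dem w v = - D.dem w v := by
  simp only [DG.dem, DG.net, DG.rev]; ring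

omit [DecidableEq A] in
lemma card_eq_rho_add (D : DG V A) (w : A → ℕ) (τ : ℕ) (hτ : τ ≠ 0) :
    ((univ.filter fun v => ¬ (τ : ℤ) ∣ D.dem w v).card : ℤ) = D.rho w τ + D.rev.rho w τ := by
  have h0 : (τ : ℤ) ≠ 0 := by exact_mod_cast hτ
  rw [rho_eq D w τ hτ, rho_eq D.rev w τ hτ]
  simp only [dem_rev]
  rw [← neg_add, ← sum_add_distrib, ← sum_neg_distrib, card_filter]
  push_cast
  refine sum_congr rfl fun v _ => ?_
  have hpos : (0 : ℤ) < τ := by omega
  have e1 := Int.mul_ediv_add_emod (D.dem w v) τ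
  have e2 := Int.mul_ediv_add_emod (-D.dem w v) τ
  have l1 := Int.emod_nonneg (D.dem w v) h0
  have l2 := Int.emod_lt_of_pos (D.dem w v) hpos
  have l3 := Int.emod_nonneg (-D.dem w v) h0
  have l4 := Int.emod_lt_of_pos (-D.dem w v) hpos
  by_cases h : (τ : ℤ) ∣ D.dem w v
  swap
  · -- not divisible
    rw [if_pos h]
    have hne : D.dem w v % τ ≠ 0 := fun h' => h (Int.dvd_of_emod_eq_zero h')
    have s1 : (τ : ℤ) * (D.dem w v / τ + -D.dem w v / τ) = -(D.dem w v % τ + -D.dem w v % τ) := by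
      rw [mul_add]; linarith
    have b1 : 0 < D.dem w v % τ + -D.dem w v % τ := by omega
    have b2 : D.dem w v % τ + -D.dem w v % τ < 2 * τ := by omega
    have k1 : D.dem w v / τ + -D.dem w v / τ < 0 := by nlinarith
    have k2 : -2 < D.dem w v / τ + -D.dem w v / τ := by nlinarith
    omega
  · rw [if_neg (not_not.2 h)]
    obtain ⟨k, hk⟩ := h
    rw [hk, ← mul_neg, Int.mul_ediv_cancel_left _ h0, Int.mul_ediv_cancel_left _ h0]
    ring

/-- The decomposition from a bound for `ρ` in `D` or in the reversed digraph. -/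
theorem decomposition_sym (D : DG V A) (w : A → ℕ) (τ : ℕ) (hτ : 2 ≤ τ)
    (hcut : ∀ U, D.IsShore U → τ ≤ D.wt w U)
    (hrho : (D.rho w τ * (D.rho w τ - 2) ≤ τ ∨ 4 * (D.rho w τ - 2) ≤ τ) ∨
      (D.rev.rho w τ * (D.rev.rho w τ - 2) ≤ τ ∨ 4 * (D.rev.rho w τ - 2) ≤ τ)) :
    ∃ c c' : A → ℕ, (∀ a, w a = c a + c' a) ∧ (∀ U, D.IsShore U → 1 ≤ D.wt c U) ∧
      (∀ U, D.IsShore U → τ - 1 ≤ D.wt c' U) := by
  rcases hrho with hrho | hrho
  · obtain ⟨c, c', h1, h3, h4, _⟩ := decomposition D w τ hτ hcut hrho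
    exact ⟨c, c', h1, h3, h4⟩
  · have hminr : ∀ U, D.rev.IsShore U → τ ≤ D.rev.wt w U := by
      intro U hU
      have e : U = univ \ (univ \ U) := by simp
      rw [e] at hU ⊢
      rw [wt_rev]
      exact hcut _ ((isShore_rev D _).1 hU)
    obtain ⟨c, c', h1, h3, h4, _⟩ := decomposition D.rev w τ hτ hminr hrho
    refine ⟨c, c', h1, fun U hU => ?_, fun U hU => ?_⟩
    · have := h3 _ ((isShore_rev D U).2 hU)
      rwa [wt_rev] at this
    · have := h4 _ ((isShore_rev D U).2 hU)
      rwa [wt_rev] at this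

/-- **Main theorem.**  A minimally non-packing clutter of minimal dijoins without a dicut of
weight `2`. -/
theorem main (D : DG V A) (w : A → ℕ) (hC : (D.clutter w).MinNonPacking)
    (h2 : ∀ U, D.IsShore U → D.wt w U ≠ 2) :
    ∃ τ : ℕ, 3 ≤ τ ∧ (∀ U, D.IsShore U → τ ≤ D.wt w U) ∧ (∃ U, D.IsShore U ∧ D.wt w U = τ) ∧
      (τ : ℤ) < D.rho w τ * (D.rho w τ - 2) ∧ (τ : ℤ) < 4 * (D.rho w τ - 2) ∧
      (τ : ℤ) < D.rev.rho w τ * (D.rev.rho w τ - 2) ∧ (τ : ℤ) < 4 * (D.rev.rho w τ - 2) ∧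
      8 ≤ (univ.filter fun v => ¬ (τ : ℤ) ∣ D.dem w v).card ∧
      τ + 9 ≤ 2 * (univ.filter fun v => ¬ (τ : ℤ) ∣ D.dem w v).card := by
  classical
  obtain ⟨⟨U1, hU1⟩, htwo⟩ := two_le_of_minNonPacking D w hC
  obtain ⟨U0, hU0, hmin⟩ := exists_min_image (univ.filter fun U => D.IsShore U) (D.wt w)
    ⟨U1, by rw [mem_filter]; exact ⟨mem_univ _, hU1⟩⟩
  rw [mem_filter] at hU0
  set τ := D.wt w U0 with hτ
  have hτ3 : 3 ≤ τ := by
    have := htwo U0 hU0.2
    have := h2 U0 hU0.2
    omega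
  have hmin' : ∀ U, D.IsShore U → τ ≤ D.wt w U := fun U hU =>
    hmin U (by rw [mem_filter]; exact ⟨mem_univ _, hU⟩)
  have key : ¬ ((D.rho w τ * (D.rho w τ - 2) ≤ τ ∨ 4 * (D.rho w τ - 2) ≤ τ) ∨
      (D.rev.rho w τ * (D.rev.rho w τ - 2) ≤ τ ∨ 4 * (D.rev.rho w τ - 2) ≤ τ)) := by
    intro hcon
    obtain ⟨c, c', h1, h3, h4⟩ := decomposition_sym D w τ (by omega) hmin' hcon
    exact no_decomposition D w hC τ (by omega) hU0.2 hτ.symm c c' h1 h3 h4
  rw [not_or, not_or, not_or, not_le, not_le, not_le, not_le] at key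
  obtain ⟨⟨r1, r1'⟩, ⟨r2, r2'⟩⟩ := key
  have hc := card_eq_rho_add D w τ (by omega)
  have hnn : ∀ D' : DG V A, 0 ≤ D'.rho w τ := by
    intro D'
    rw [DG.rho]
    apply Int.ediv_nonneg
    · exact sum_nonneg fun v _ => Int.emod_nonneg _ (by omega)
    · omega
  have g : ∀ r : ℤ, 0 ≤ r → (τ : ℤ) < r * (r - 2) → 4 ≤ r := by
    intro r hr h
    by_contra hcon
    have : r ≤ 3 := by omega
    nlinarith
  have g1 := g _ (hnn D) r1
  have g2 := g _ (hnn D.rev) r2
  refine ⟨τ, hτ3, hmin', ⟨U0, hU0.2, rfl⟩, r1, r1', r2, r2', ?_, ?_⟩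
  · have : (8 : ℤ) ≤ ((univ.filter fun v => ¬ (τ : ℤ) ∣ D.dem w v).card : ℤ) := by
      rw [hc]; linarith
    exact_mod_cast this
  · have : (τ : ℤ) + 9 ≤ 2 * ((univ.filter fun v => ¬ (τ : ℤ) ∣ D.dem w v).card : ℤ) := by
      rw [hc]; omega
    exact_mod_cast this

end Pool.Agent.helper52.DJ
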