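import Mathlib

/-!
# Up-closed sets of a crossing family

A family `T` of nonempty proper subsets of a finite set `V` is *crossing* if with `U, W` (meeting and
not covering `V`) it contains `U ∩ W` and `U ∪ W`.  A set `Z` is *up-closed* for `T` if it contains with
`z` every `v` lying in all members of `T` that contain `z`.  The sum over `Z` of a function
with total sum zero is a sum of its sums over members of `T`.
-/

namespace Pool.Agent.helper52.DJ

open Finset

variable {V : Type*} [Fintype V] [DecidableEq V]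

/-- crossing family of nonempty proper subsets -/
structure IsCrossing (T : Set (Finset V)) : Prop where
  nonempty : ∀ U ∈ T, U.Nonempty
  ne_univ : ∀ U ∈ T, U ≠ univ
  inter : ∀ U ∈ T, ∀ W ∈ T, (U ∩ W).Nonempty → U ∪ W ≠ univ → U ∩ W ∈ T
  union : ∀ U ∈ T, ∀ W ∈ T, (U ∩ W).Nonempty → U ∪ W ≠ univ → U ∪ W ∈ T

/-- up-closed sets of a family -/
def UpClosed (T : Set (Finset V)) (Z : Finset V) : Prop :=
  ∀ z ∈ Z, ∀ v, (∀ U ∈ T, z ∈ U → v ∈ U) → v ∈ Z

omit [Fintype V] in
lemma UpClosed.inter {T : Set (Finset V)} {Z W : Finset V} (hZ : UpClosed T Z) (hW : UpClosed T W) :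
    UpClosed T (Z ∩ W) := by
  intro z hz v hv
  rw [mem_inter] at hz ⊢
  exact ⟨hZ z hz.1 v hv, hW z hz.2 v hv⟩

omit [Fintype V] in
lemma UpClosed.union {T : Set (Finset V)} {Z W : Finset V} (hZ : UpClosed T Z) (hW : UpClosed T W) :
    UpClosed T (Z ∪ W) := by
  intro z hz v hv
  rw [mem_union] at hz ⊢
  rcases hz with hz | hz
  · exact Or.inl (hZ z hz v hv)
  · exact Or.inr (hW z hz v hv)

omit [Fintype V] [DecidableEq V] in
lemma upClosed_of_mem {T : Set (Finset V)} {C : Finset V} (hC : C ∈ T) : UpClosed T C :=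
  fun _ hz _ hv => hv C hC hz

/-- the sum over an up-closed set lies in the submonoid containing the sums over the members -/
theorem sum_mem_of_upClosed {M : Type*} [AddCommGroup M] (S : AddSubmonoid M)
    {T : Set (Finset V)} (hT : IsCrossing T) (f : V → M) (hf : ∑ v, f v = 0)
    (hS : ∀ U ∈ T, ∑ v ∈ U, f v ∈ S) :
    ∀ (n : ℕ) (Z : Finset V), Z.card = n → UpClosed T Z → ∑ v ∈ Z, f v ∈ S := by
  classical
  intro n
  induction n using Nat.strong_induction_on with
  | _ n ih =>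
  intro Z hn hZ
  by_cases hZe : Z = ∅
  · subst hZe; simp
  by_cases hZu : Z = univ
  · subst hZu; rw [hf]; exact S.zero_mem
  by_cases hcase : ∃ v ∉ Z, ∃ z ∈ Z, ∃ C ∈ T, z ∈ C ∧ v ∉ C ∧ ¬ Z ⊆ C ∧
      ∀ W ∈ T, z ∈ W → v ∉ W → C ⊆ W → W = C
  · obtain ⟨v, hvZ, z, hzZ, C, hCT, hzC, hvC, hnot, hmax⟩ := hcase
    have h1 : UpClosed T (Z ∩ C) := hZ.inter (upClosed_of_mem hCT)
    have h2 : UpClosed T (Z \ C) := by
      intro x hx y hy
      rw [mem_sdiff] at hx ⊢
      refine ⟨hZ x hx.1 y hy, fun hyC => ?_⟩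
      have hW : ∃ W ∈ T, x ∈ W ∧ v ∉ W := by
        by_contra hcon
        push Not at hcon
        exact hvZ (hZ x hx.1 v hcon)
      obtain ⟨W, hWT, hxW, hvW⟩ := hW
      have hyW : y ∈ W := hy W hWT hxW
      have hne : (W ∩ C).Nonempty := ⟨y, mem_inter.2 ⟨hyW, hyC⟩⟩
      have hnu : W ∪ C ≠ univ := by
        intro h
        have : v ∈ W ∪ C := h ▸ mem_univ v
        rw [mem_union] at this
        tauto
      have hmem := hT.union W hWT C hCT hne hnu
      have := hmax _ hmem (mem_union_right _ hzC) (by rw [mem_union]; tauto) subset_union_right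
      exact hx.2 (this ▸ mem_union_left _ hxW)
    have hc1 : (Z ∩ C).card < n := by
      rw [← hn]
      refine card_lt_card ⟨inter_subset_left, fun h => hnot ?_⟩
      exact h.trans inter_subset_right
    have hc2 : (Z \ C).card < n := by
      rw [← hn]
      refine card_lt_card ⟨sdiff_subset, fun h => ?_⟩
      exact (mem_sdiff.1 (h hzZ)).2 hzC
    have e : ∑ v ∈ Z, f v = ∑ v ∈ Z ∩ C, f v + ∑ v ∈ Z \ C, f v := by
      rw [← sum_union (disjoint_left.2 fun a ha hb => (mem_sdiff.1 hb).2 (mem_inter.1 ha).2)]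
      congr 1
      ext a; simp only [mem_union, mem_inter, mem_sdiff]; tauto
    rw [e]
    exact S.add_mem (ih _ hc1 _ rfl h1) (ih _ hc2 _ rfl h2)
  · push Not at hcase
    -- every `v ∉ Z` is avoided by a member containing `Z`
    obtain ⟨z, hz⟩ := nonempty_iff_ne_empty.2 hZe
    have hav : ∀ v ∉ Z, ∃ C ∈ T, Z ⊆ C ∧ v ∉ C := by
      intro v hv
      set F : Finset (Finset V) := univ.filter fun C => C ∈ T ∧ z ∈ C ∧ v ∉ C with hF
      have hne : F.Nonempty := by
        by_contra hcon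
        rw [not_nonempty_iff_eq_empty] at hcon
        refine hv (hZ z hz v fun U hU hzU => ?_)
        by_contra hvU
        have : U ∈ F := by rw [hF, mem_filter]; exact ⟨mem_univ _, hU, hzU, hvU⟩
        rw [hcon] at this
        exact absurd this (notMem_empty _)
      obtain ⟨C, hC, hCmax⟩ := exists_max_image F card hne
      rw [hF, mem_filter] at hC
      refine ⟨C, hC.2.1, ?_, hC.2.2.2⟩
      by_contra hnot
      obtain ⟨W, hW, hzW, hvW, hCW, hWC⟩ := hcase v hv z hz C hC.2.1 hC.2.2.1 hC.2.2.2 hnot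
      have hWF : W ∈ F := by rw [hF, mem_filter]; exact ⟨mem_univ _, hW, hzW, hvW⟩
      have := hCmax W hWF
      exact hWC (eq_of_subset_of_card_le hCW this).symm
    set G : Finset (Finset V) := univ.filter fun C => C ∈ T ∧ Z ⊆ C ∧
      ∀ W ∈ T, Z ⊆ W → W ⊆ C → W = C with hG
    have hGm : ∀ C ∈ T, Z ⊆ C → ∃ D ∈ G, D ⊆ C := by
      intro C hC hZC
      set F : Finset (Finset V) := univ.filter fun D => D ∈ T ∧ Z ⊆ D ∧ D ⊆ C with hF
      have hne : F.Nonempty := ⟨C, by rw [hF, mem_filter]; exact ⟨mem_univ _, hC, hZC, Subset.refl _⟩⟩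
      obtain ⟨D, hD, hDmin⟩ := exists_min_image F card hne
      rw [hF, mem_filter] at hD
      refine ⟨D, ?_, hD.2.2.2⟩
      rw [hG, mem_filter]
      refine ⟨mem_univ _, hD.2.1, hD.2.2.1, fun W hW hZW hWD => ?_⟩
      have hWF : W ∈ F := by
        rw [hF, mem_filter]; exact ⟨mem_univ _, hW, hZW, hWD.trans hD.2.2.2⟩
      exact eq_of_subset_of_card_le hWD (hDmin W hWF)
    have hpair : ∀ C ∈ G, ∀ D ∈ G, C ≠ D → Disjoint (univ \ C) (univ \ D) := by
      intro C hC D hD hne
      rw [hG, mem_filter] at hC hD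
      rw [disjoint_left]
      intro a ha hb
      have hCD : (C ∩ D).Nonempty := ⟨z, mem_inter.2 ⟨hC.2.2.1 hz, hD.2.2.1 hz⟩⟩
      have hnu : C ∪ D ≠ univ := by
        intro h
        have : a ∈ C ∪ D := h ▸ mem_univ a
        rw [mem_union] at this
        simp only [mem_sdiff, mem_univ, true_and] at ha hb
        tauto
      have hI := hT.inter C hC.2.1 D hD.2.1 hCD hnu
      have hZI : Z ⊆ C ∩ D := subset_inter hC.2.2.1 hD.2.2.1
      have e1 := hC.2.2.2 _ hI hZI inter_subset_left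
      have e2 := hD.2.2.2 _ hI hZI inter_subset_right
      exact hne (e1.symm.trans e2)
    have hcompl : univ \ Z = G.biUnion fun C => univ \ C := by
      ext v
      simp only [mem_sdiff, mem_univ, true_and, mem_biUnion]
      constructor
      · intro hv
        obtain ⟨C, hC, hZC, hvC⟩ := hav v hv
        obtain ⟨D, hD, hDC⟩ := hGm C hC hZC
        exact ⟨D, hD, fun h => hvC (hDC h)⟩
      · rintro ⟨C, hC, hvC⟩ hvZ
        rw [hG, mem_filter] at hC
        exact hvC (hC.2.2.1 hvZ)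
    have hneg : ∀ W : Finset V, ∑ v ∈ W, f v = - ∑ v ∈ univ \ W, f v := by
      intro W
      have : ∑ v ∈ univ \ W, f v + ∑ v ∈ W, f v = ∑ v, f v := sum_sdiff (subset_univ W)
      rw [hf] at this
      exact (neg_eq_of_add_eq_zero_right this).symm
    rw [hneg Z, hcompl, sum_biUnion hpair, ← sum_neg_distrib]
    refine S.sum_mem fun C hC => ?_
    rw [← hneg C]
    rw [hG, mem_filter] at hC
    exact hS C hC.2.1

theorem sum_nonneg_of_upClosed {T : Set (Finset V)} (hT : IsCrossing T) (f : V → ℤ)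
    (hf : ∑ v, f v = 0) (hS : ∀ U ∈ T, 0 ≤ ∑ v ∈ U, f v) (Z : Finset V) (hZ : UpClosed T Z) :
    0 ≤ ∑ v ∈ Z, f v :=
  sum_mem_of_upClosed (AddSubmonoid.nonneg ℤ) hT f hf hS _ Z rfl hZ

theorem sum_int_of_upClosed {T : Set (Finset V)} (hT : IsCrossing T) (f : V → ℝ)
    (hf : ∑ v, f v = 0) (hS : ∀ U ∈ T, ∃ k : ℤ, ∑ v ∈ U, f v = k) (Z : Finset V)
    (hZ : UpClosed T Z) : ∃ k : ℤ, ∑ v ∈ Z, f v = k := by
  have := sum_mem_of_upClosed (AddMonoidHom.mrange (Int.castAddHom ℝ)) hT f hf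
    (fun U hU => by
      obtain ⟨k, hk⟩ := hS U hU
      exact ⟨k, by simpa using hk.symm⟩) _ Z rfl hZ
  obtain ⟨k, hk⟩ := this
  exact ⟨k, by simpa using hk.symm⟩

end Pool.Agent.helper52.DJ
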